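import Pool.Agent.H441R3.BV.Par
import Pool.Agent.H441R3.BV.Small
import Pool.Agent.H441R3.BV.Dy

/-!
Assembly.
-/

set_option autoImplicit false

open Finset

namespace Pool.Agent.H441R3.BV

open Pool.Agent.H398R2.BV (Prim card_prim_le)
open Pool.Agent.H300R2.WEH
open Pool.Agent.H442R2.EHI (piAP lis pnt_err)

/-- the value at `n` is controlled by the value at one grid point -/
lemma eL_grid_max (N J n d l : ℕ) (hJ : 1 ≤ J) (hn : n ≤ N) (hd : 1 ≤ d) :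
    ∃ i ∈ Icc 1 J, eL n d l ≤ eL (gp N J i) d l +
      2 * ((N : ℝ) / J + 1) / (Nat.totient d : ℝ) := by
  have hφ : (1 : ℝ) ≤ Nat.totient d := by exact_mod_cast Nat.totient_pos.mpr (by omega)
  have hφ0 : (0 : ℝ) < Nat.totient d := by linarith
  obtain ⟨i, hi, hi1, hi2⟩ := exists_grid N J n hJ hn
  obtain ⟨s1, s2⟩ := gp_step N J i hJ
  set u := gp N J i with hu
  set v := gp N J (i + 1) with hv
  have p1 := piAP_mono hi1 d l
  have p2 := piAP_mono hi2 d l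
  obtain ⟨l1, l2⟩ := lis_diff hi1
  obtain ⟨l3, l4⟩ := lis_diff hi2
  have hu1 : (u : ℝ) ≤ n := by exact_mod_cast hi1
  have hv1 : (n : ℝ) ≤ v := by exact_mod_cast hi2
  have q1 : lis v / (Nat.totient d : ℝ) - lis n / (Nat.totient d : ℝ) ≤
      2 * ((N : ℝ) / J + 1) / (Nat.totient d : ℝ) := by
    rw [← sub_div]
    gcongr
    linarith
  have q2 : lis n / (Nat.totient d : ℝ) - lis u / (Nat.totient d : ℝ) ≤
      2 * ((N : ℝ) / J + 1) / (Nat.totient d : ℝ) := by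
    rw [← sub_div]
    gcongr
    linarith
  have r1 : piAP v d l - lis v / (Nat.totient d : ℝ) ≤ eL v d l := le_abs_self _
  have r2 : -(piAP u d l - lis u / (Nat.totient d : ℝ)) ≤ eL u d l := neg_le_abs _
  have v0 := eL_nonneg v d l
  have u0 := eL_nonneg u d l
  have hpos : 0 ≤ 2 * ((N : ℝ) / J + 1) / (Nat.totient d : ℝ) := by positivity
  rcases le_total 0 (piAP n d l - lis n / (Nat.totient d : ℝ)) with hs | hs
  · refine ⟨i + 1, by rw [mem_Icc]; omega, ?_⟩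
    rw [← hv]
    have : eL n d l = piAP n d l - lis n / (Nat.totient d : ℝ) := abs_of_nonneg hs
    rw [this]
    linarith
  · have hen : eL n d l = -(piAP n d l - lis n / (Nat.totient d : ℝ)) := abs_of_nonpos hs
    rcases Nat.eq_zero_or_pos i with h | h
    · refine ⟨1, by rw [mem_Icc]; omega, ?_⟩
      have hu0 : u = 0 := by
        rw [hu, h, gp]
        simp
      have : eL u d l = 0 := by
        rw [hu0]
        unfold eL piAP lis
        simp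
      have := eL_nonneg (gp N J 1) d l
      rw [hen]
      linarith
    · refine ⟨i, by rw [mem_Icc]; omega, ?_⟩
      rw [← hu, hen]
      linarith

lemma omega_log (d : ℕ) (hd : 1 ≤ d) : (d.primeFactors.card : ℝ) ≤ 2 * Real.log d := by
  have h1 : 2 ^ d.primeFactors.card ≤ d := by
    calc 2 ^ d.primeFactors.card ≤ ∏ p ∈ d.primeFactors, p :=
          Finset.pow_card_le_prod _ _ _ fun p hp => (Nat.prime_of_mem_primeFactors hp).two_le
      _ ≤ d := Nat.le_of_dvd (by omega) (Nat.prod_primeFactors_dvd d)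
  have h2 : (2:ℝ) ^ d.primeFactors.card ≤ d := by exact_mod_cast h1
  have h3 := Real.log_le_log (by positivity) h2
  rw [Real.log_pow] at h3
  have h4 := Real.log_two_gt_d9
  have h5 : (0:ℝ) ≤ d.primeFactors.card := Nat.cast_nonneg _
  nlinarith

lemma nlog_le (D : ℕ) (hD : 1 ≤ D) : (Nat.log 2 D : ℝ) ≤ 2 * Real.log D := by
  have h1 : 2 ^ Nat.log 2 D ≤ D := Nat.pow_log_le_self 2 (by omega)
  have h2 : (2:ℝ) ^ Nat.log 2 D ≤ D := by exact_mod_cast h1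
  have h3 := Real.log_le_log (by positivity) h2
  rw [Real.log_pow] at h3
  have h4 := Real.log_two_gt_d9
  have h5 : (0:ℝ) ≤ Nat.log 2 D := Nat.cast_nonneg _
  nlinarith

/-- the sum over the conductors -/
lemma cond_sum (N D L V b : ℕ) (Λ C1 : ℝ) (U : ℕ) (hΛ : Λ = Real.log N) (hΛ4 : 4 ≤ Λ)
    (hN : 0 < N) (hC1 : 0 ≤ C1) (hD : 1 ≤ D) (hD2 : D ^ 2 ≤ N) (hL1 : 1 ≤ L)
    (hV : V = U + 4)
    (hLΛ : (L:ℝ) ≤ Λ) (hL2 : Λ ≤ 2 * L)
    (NN : Finset ℕ) (hne : NN.Nonempty)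
    (hsm : ∀ F0 : ℕ, (F0:ℝ) ≤ Real.log N ^ (b + 1) →
      ∑ f ∈ Icc 2 F0, (1 / (Nat.totient f : ℝ)) * ∑ ψ ∈ Prim f, MX NN hne f ψ ≤
        N / Real.log N ^ (U + 2))
    (hlv : ∀ F : ℕ, (L:ℝ) ^ b ≤ F → (F:ℝ) ^ 2 ≤ N → Av F (fun f ψ => MX NN hne f ψ) ≤
      C1 * Real.log (Real.log N) ^ 2 * Real.sqrt N * F + N / (L:ℝ) ^ V) :
    ∑ d ∈ Icc 1 D, (1 / (Nat.totient d : ℝ)) * ∑ f ∈ d.divisors.filter (fun f => f ≠ 1),
        ∑ ψ ∈ Prim f, MX NN hne f ψ ≤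
      (1 + 2 ^ V) * (N / Λ ^ U) + 15 * C1 * (D * Real.sqrt N * Real.log (Real.log N) ^ 2) := by
  have hNr : (0:ℝ) < N := by exact_mod_cast hN
  have hDr : (1:ℝ) ≤ D := by exact_mod_cast hD
  have hL0 : (0:ℝ) < L := by linarith
  have hG : ∀ f, 0 ≤ ∑ ψ ∈ Prim f, MX NN hne f ψ := fun f =>
    sum_nonneg fun ψ _ => MX_nonneg _ _ _ _
  have s1 := swap D (fun f => ∑ ψ ∈ Prim f, MX NN hne f ψ) hG
  refine s1.trans ?_
  set i0 := Nat.clog 2 (L ^ b) with hi0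
  have hi1 : L ^ b ≤ 2 ^ i0 := Nat.le_pow_clog (by norm_num) _
  have hi2 : 2 ^ i0 ≤ 2 * L ^ b := by
    rcases Nat.lt_or_ge 1 (L ^ b) with h1 | h1
    · have h2 : 2 ^ (i0 - 1) < L ^ b := Nat.pow_pred_clog_lt_self (by norm_num) h1
      have h3 : 0 < i0 := Nat.clog_pos (by norm_num) h1
      have h4 : 2 ^ i0 = 2 * 2 ^ (i0 - 1) := by
        rw [← pow_succ']
        congr 1
        omega
      omega
    · have h2 : L ^ b = 1 := le_antisymm h1 (Nat.one_le_pow _ _ hL1)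
      have h3 : i0 = 0 := by rw [hi0, h2]; simp
      rw [h3, h2]
      norm_num
  have hi1' : (L:ℝ) ^ b ≤ 2 ^ i0 := by exact_mod_cast hi1
  have hi2' : (2:ℝ) ^ i0 ≤ 2 * (L:ℝ) ^ b := by exact_mod_cast hi2
  have hF0 : ((2 ^ i0 : ℕ) : ℝ) ≤ Real.log N ^ (b + 1) := by
    push_cast
    rw [← hΛ]
    calc (2:ℝ) ^ i0 ≤ 2 * (L:ℝ) ^ b := hi2'
      _ ≤ Λ * Λ ^ b := by gcongr; linarith
      _ = Λ ^ (b + 1) := by ring
  have s2 := dyadic D i0 hD (fun f => (1 / (Nat.totient f : ℝ)) * ∑ ψ ∈ Prim f, MX NN hne f ψ)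
    (fun f => mul_nonneg (by positivity) (hG f)) (N / Real.log N ^ (U + 2)) (N / (L:ℝ) ^ V)
    (C1 * Real.log (Real.log N) ^ 2 * Real.sqrt N) (by positivity) (by positivity)
    (hsm (2 ^ i0) hF0) (by
      intro i hi hiD
      have h3 := hlv (2 ^ i) (by
        push_cast
        refine hi1'.trans ?_
        exact pow_le_pow_right₀ (by norm_num) hi) (by
        have h4 : (2 ^ i) ^ 2 ≤ N := (Nat.pow_le_pow_left hiD 2).trans hD2
        exact_mod_cast h4)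
      unfold Av at h3
      push_cast at h3
      exact h3)
  refine s2.trans ?_
  rw [← hΛ]
  have hlD : 2 * Real.log D ≤ Λ := by
    have h3 : ((D:ℝ)) ^ 2 ≤ N := by exact_mod_cast hD2
    have h4 := Real.log_le_log (by positivity) h3
    rw [Real.log_pow] at h4
    rw [hΛ]
    push_cast at h4
    exact h4
  have hlD0 : 0 ≤ Real.log D := Real.log_natCast_nonneg D
  have hnl := nlog_le D hD
  have e1 : (1 + Real.log D) ^ 2 ≤ Λ ^ 2 := by
    apply pow_le_pow_left₀ (by linarith)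
    linarith
  have e2 : (Nat.log 2 D : ℝ) + 1 ≤ 2 * Λ := by linarith
  have hnl0 : (0:ℝ) ≤ Nat.log 2 D := Nat.cast_nonneg _
  have hΛ0 : 0 < Λ := by linarith
  have e3 : (N:ℝ) / Λ ^ (U + 2) * (1 + Real.log D) ^ 2 ≤ N / Λ ^ U := by
    calc (N:ℝ) / Λ ^ (U + 2) * (1 + Real.log D) ^ 2 ≤ N / Λ ^ (U + 2) * Λ ^ 2 := by gcongr
      _ = N / Λ ^ U := by rw [pow_add]; field_simp
  have e4 : ((Nat.log 2 D : ℝ) + 1) * (1 + Real.log D) ^ 2 * (N / (L:ℝ) ^ V) ≤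
      2 ^ V * (N / Λ ^ U) := by
    have h5 : Λ ^ V ≤ 2 ^ V * (L:ℝ) ^ V := by
      rw [← mul_pow]
      exact pow_le_pow_left₀ hΛ0.le hL2 V
    calc ((Nat.log 2 D : ℝ) + 1) * (1 + Real.log D) ^ 2 * (N / (L:ℝ) ^ V)
        ≤ (2 * Λ) * Λ ^ 2 * (N / (L:ℝ) ^ V) := by gcongr
      _ = 2 * Λ ^ 3 * N / (L:ℝ) ^ V := by ring
      _ ≤ 2 ^ V * (N / Λ ^ U) := by
          rw [mul_div_assoc', div_le_div_iff₀ (by positivity) (by positivity)]
          calc 2 * Λ ^ 3 * N * Λ ^ U ≤ Λ * Λ ^ 3 * N * Λ ^ U := by gcongr; linarith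
            _ = N * Λ ^ V := by rw [hV, pow_add]; ring
            _ ≤ N * (2 ^ V * (L:ℝ) ^ V) := by gcongr
            _ = 2 ^ V * N * (L:ℝ) ^ V := by ring
  have e5 : 15 * (C1 * Real.log Λ ^ 2 * Real.sqrt N) * D =
      15 * C1 * (D * Real.sqrt N * Real.log Λ ^ 2) := by ring
  linarith

/-- grid points are large -/
lemma gp_ge (N J i : ℕ) (hJ : 1 ≤ J) (hi : i ∈ Icc 1 J) (hJN : 2 * (J:ℝ) ≤ Real.sqrt N) :
    Real.sqrt N ≤ (gp N J i : ℝ) ∧ gp N J i ≤ N := by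
  rw [mem_Icc] at hi
  have hJr : (1:ℝ) ≤ J := by exact_mod_cast hJ
  have hs := Real.sqrt_nonneg (N:ℝ)
  have hs2 : Real.sqrt N ^ 2 = N := Real.sq_sqrt (Nat.cast_nonneg N)
  constructor
  · have h1 : N / J ≤ gp N J i := by
      unfold gp
      apply Nat.div_le_div_right
      nlinarith
    have h2 : (N:ℝ) / J < ((N / J : ℕ) : ℝ) + 1 := by
      rw [div_lt_iff₀ (by linarith)]
      have h3 : N < N / J * J + J := Nat.lt_div_mul_add (by omega)
      have h4 : (N:ℝ) < ((N / J * J + J : ℕ) : ℝ) := by exact_mod_cast h3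
      push_cast at h4 ⊢
      linarith
    have h5 : ((N / J : ℕ) : ℝ) ≤ gp N J i := by exact_mod_cast h1
    have h6 : Real.sqrt N + 1 ≤ (N:ℝ) / J := by
      rw [le_div_iff₀ (by linarith)]
      nlinarith
    linarith
  · unfold gp
    calc i * N / J ≤ J * N / J := Nat.div_le_div_right (Nat.mul_le_mul_right N hi.2)
      _ = N := Nat.mul_div_cancel_left N (by omega)

end Pool.Agent.H441R3.BV
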