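import Pool.Agent.H441R3.BV.LSa

/-!
Pointwise decomposition of the character sum over primes.
-/

set_option autoImplicit false

open Finset

namespace Pool.Agent.H441R3.BV

open Pool.Agent.H398R2.BV (Prim card_prim_le hyperC sum_card_pow_div two_pow_omega_le)
open Pool.Agent.Helper112

/-- mean square of the tail of the Legendre sum -/
lemma sum_gw (z W x : ℕ) (hz : 2 ≤ z) (hW : 1 ≤ W) :
    ∑ n ∈ Icc 1 x, gw z W n ^ 2 ≤
      (4:ℝ) ^ (-(Real.log W / Real.log z)) * (x * (1 + Real.log x) ^ 16) := by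
  have hz0 : (0:ℝ) < z := by
    have : 0 < z := by omega
    exact_mod_cast this
  have hlz : 0 < Real.log z := Real.log_pos (by exact_mod_cast (by omega : 1 < z))
  have hW0 : (0:ℝ) < W := by exact_mod_cast hW
  set k := Real.log W / Real.log z with hk
  have h1 : ∀ n ∈ Icc 1 x, gw z W n ^ 2 ≤ (4:ℝ) ^ (-k) * (x * ((n.divisors.card : ℝ) ^ 4 / n)) := by
    intro n hn
    rw [mem_Icc] at hn
    have hn0 : (0:ℝ) < n := by
      have : 0 < n := by omega
      exact_mod_cast this
    have hnx : (n:ℝ) ≤ x := by exact_mod_cast hn.2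
    have hR : (n.divisors.card : ℝ) ^ 4 ≤ x * ((n.divisors.card : ℝ) ^ 4 / n) := by
      rw [mul_div_assoc', le_div_iff₀ hn0, mul_comm]
      gcongr
    by_cases h0 : gw z W n = 0
    · rw [h0, zero_pow two_ne_zero]
      positivity
    · have h2 : ∃ e ∈ (n.gcd (PP z)).divisors, W < e := by
        by_contra hcon
        push Not at hcon
        apply h0
        unfold gw
        apply sum_eq_zero
        intro e he
        rw [mem_filter] at he
        exact absurd he.2 (not_lt.2 (hcon e he.1))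
      obtain ⟨e, he, hWe⟩ := h2
      have h3 : e ≤ n.gcd (PP z) := Nat.divisor_le he
      have h4 := gcd_le_pow z n (by omega) (by omega)
      have h5 : (W:ℝ) < (z:ℝ) ^ n.primeFactors.card := by
        exact_mod_cast lt_of_lt_of_le hWe (h3.trans h4)
      have h6 : k < n.primeFactors.card := by
        rw [hk, div_lt_iff₀ hlz, ← Real.log_pow]
        exact Real.log_lt_log hW0 h5
      have h7 : |gw z W n| ≤ n.divisors.card := by
        unfold gw
        refine (abs_sum_le_sum_abs _ _).trans ?_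
        calc ∑ e ∈ (n.gcd (PP z)).divisors.filter (fun e => W < e), |mr e|
            ≤ ∑ _e ∈ (n.gcd (PP z)).divisors.filter (fun e => W < e), (1:ℝ) :=
              sum_le_sum fun e _ => abs_mr e
          _ = ((n.gcd (PP z)).divisors.filter (fun e => W < e)).card := by simp
          _ ≤ ((n.gcd (PP z)).divisors.card : ℝ) := by exact_mod_cast card_filter_le _ _
          _ ≤ n.divisors.card := by
              exact_mod_cast card_le_card (Nat.divisors_subset_of_dvd (by omega) (Nat.gcd_dvd_left _ _))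
      have h8 : gw z W n ^ 2 ≤ (n.divisors.card : ℝ) ^ 2 := by
        rw [← sq_abs]
        exact pow_le_pow_left₀ (abs_nonneg _) h7 2
      have h9 : (1:ℝ) ≤ (4:ℝ) ^ (-k) * (n.divisors.card : ℝ) ^ 2 := by
        have h10 : (4:ℝ) ^ (n.primeFactors.card : ℝ) ≤ (n.divisors.card : ℝ) ^ 2 := by
          rw [Real.rpow_natCast, show (4:ℝ) = 2 ^ 2 by norm_num, ← pow_mul, mul_comm, pow_mul]
          apply pow_le_pow_left₀ (by positivity)
          exact_mod_cast two_pow_omega_le n (by omega)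
        calc (1:ℝ) ≤ (4:ℝ) ^ ((n.primeFactors.card : ℝ) - k) :=
              Real.one_le_rpow (by norm_num) (by linarith)
          _ = (4:ℝ) ^ (-k) * (4:ℝ) ^ (n.primeFactors.card : ℝ) := by
              rw [← Real.rpow_add (by norm_num)]
              congr 1
              ring
          _ ≤ _ := by gcongr
      calc gw z W n ^ 2 ≤ (n.divisors.card : ℝ) ^ 2 * 1 := by rw [mul_one]; exact h8
        _ ≤ (n.divisors.card : ℝ) ^ 2 * ((4:ℝ) ^ (-k) * (n.divisors.card : ℝ) ^ 2) := by gcongr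
        _ = (4:ℝ) ^ (-k) * (n.divisors.card : ℝ) ^ 4 := by ring
        _ ≤ _ := by gcongr
  refine (sum_le_sum h1).trans ?_
  rw [← mul_sum, ← mul_sum]
  have := sum_card_pow_div 4 x
  norm_num at this
  gcongr

/-- the part of `cv` near the boundary -/
noncomputable def gb (z H T n : ℕ) : ℝ :=
  ∑ i ∈ n.divisorsAntidiagonal, if kap H i.1 + kap H i.2 + 2 ≤ T then 0 else av z i.1 * bv z i.2

noncomputable def c1 (z H T n : ℕ) : ℝ :=
  ∑ i ∈ n.divisorsAntidiagonal, if kap H i.1 + kap H i.2 + 2 ≤ T then av z i.1 * bv z i.2 else 0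

lemma cv_split (z H T n : ℕ) : cv z n = c1 z H T n + gb z H T n := by
  unfold cv c1 gb
  rw [← sum_add_distrib]
  apply sum_congr rfl
  intro i _
  split_ifs <;> simp

lemma kap_le (H n : ℕ) : (kap H n : ℝ) ≤ H * Real.log n := by
  unfold kap
  exact Nat.floor_le (mul_nonneg (Nat.cast_nonneg _) (Real.log_natCast_nonneg n))

lemma exp_kap_le (H n : ℕ) (hH : 0 < H) (hn : 0 < n) : Real.exp ((kap H n : ℝ) / H) ≤ n := by
  have hH0 : (0:ℝ) < H := by exact_mod_cast hH
  have hn0 : (0:ℝ) < n := by exact_mod_cast hn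
  rw [← Real.le_log_iff_exp_le hn0, div_le_iff₀ hH0, mul_comm]
  exact kap_le H n

lemma prod_lt (H p m N : ℕ) (hH : 0 < H) (hp : 0 < p) (hm : 0 < m)
    (h : kap H p + kap H m + 2 ≤ kap H N) : p * m < N := by
  have hH0 : (0:ℝ) < H := by exact_mod_cast hH
  have hN : 0 < N := by
    rcases Nat.eq_zero_or_pos N with h0 | h0
    · subst h0
      have : kap H 0 = 0 := by unfold kap; simp
      omega
    · exact h0
  have h1 := kap_lt hH hp (Nat.lt_succ_self (kap H p))
  have h2 := kap_lt hH hm (Nat.lt_succ_self (kap H m))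
  have h3 := exp_kap_le H N hH hN
  have hp0 : (0:ℝ) < p := by exact_mod_cast hp
  have hm0 : (0:ℝ) < m := by exact_mod_cast hm
  have h4 : ((p * m : ℕ) : ℝ) < N := by
    push_cast
    calc (p:ℝ) * m < Real.exp (((kap H p).succ : ℝ) / H) * Real.exp (((kap H m).succ : ℝ) / H) :=
          mul_lt_mul'' h1 h2 hp0.le hm0.le
      _ = Real.exp (((kap H p + kap H m + 2 : ℕ) : ℝ) / H) := by
          rw [← Real.exp_add]
          congr 1
          push_cast
          ring
      _ ≤ Real.exp ((kap H N : ℝ) / H) := by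
          apply Real.exp_le_exp.2
          have : ((kap H p + kap H m + 2 : ℕ) : ℝ) ≤ kap H N := by exact_mod_cast h
          gcongr
      _ ≤ N := h3
  exact_mod_cast h4

lemma gb_nonneg (z H T n : ℕ) : 0 ≤ gb z H T n := by
  unfold gb
  apply sum_nonneg
  intro i _
  split_ifs
  · exact le_rfl
  · exact mul_nonneg (av_nonneg _ _) (bv_nonneg _ _)

lemma c1_nonneg (z H T n : ℕ) : 0 ≤ c1 z H T n := by
  unfold c1
  apply sum_nonneg
  intro i _
  split_ifs
  · exact mul_nonneg (av_nonneg _ _) (bv_nonneg _ _)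
  · exact le_rfl

lemma sum_gb (z H N : ℕ) (hH : 0 < H) :
    ∑ n ∈ Icc 1 N, gb z H (kap H N) n ^ 2 ≤ 2 * N / H + 1 := by
  have hH0 : (0:ℝ) < H := by exact_mod_cast hH
  rcases Nat.eq_zero_or_pos N with h0 | hN
  · subst h0; simp
  have hN0 : (0:ℝ) < N := by exact_mod_cast hN
  set y : ℝ := N * (1 - 2 / H) with hy
  have h1 : ∀ n ∈ Icc 1 N, gb z H (kap H N) n ^ 2 ≤ if y < n then 1 else 0 := by
    intro n hn
    rw [mem_Icc] at hn
    have hn0 : (0:ℝ) < n := by
      have : 0 < n := by omega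
      exact_mod_cast this
    have hb0 := gb_nonneg z H (kap H N) n
    have hb1 : gb z H (kap H N) n ≤ 1 := by
      have h2 := cv_split z H (kap H N) n
      have h3 := c1_nonneg z H (kap H N) n
      have h4 := cv_le_one z n (by omega)
      linarith
    split_ifs with h
    · nlinarith
    · have : gb z H (kap H N) n = 0 := by
        unfold gb
        apply sum_eq_zero
        intro i hi
        rw [Nat.mem_divisorsAntidiagonal] at hi
        have hi1 : 0 < i.1 := Nat.pos_of_ne_zero fun h' => hi.2 (by rw [← hi.1, h', zero_mul])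
        have hi2 : 0 < i.2 := Nat.pos_of_ne_zero fun h' => hi.2 (by rw [← hi.1, h', mul_zero])
        rw [if_pos]
        by_contra hcon
        push Not at hcon
        apply h
        have e1 := kap_le H i.1
        have e2 := kap_le H i.2
        have e3 : (H:ℝ) * Real.log N < kap H N + 1 := Nat.lt_floor_add_one _
        have e4 : (kap H N : ℝ) + 1 ≤ kap H i.1 + kap H i.2 + 2 := by exact_mod_cast hcon
        have hi1' : (0:ℝ) < i.1 := by exact_mod_cast hi1
        have hi2' : (0:ℝ) < i.2 := by exact_mod_cast hi2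
        have e5 : Real.log n = Real.log i.1 + Real.log i.2 := by
          rw [← Real.log_mul hi1'.ne' hi2'.ne', ← hi.1]
          push_cast
          rfl
        have e6 : (H:ℝ) * Real.log N < H * Real.log n + 2 := by
          rw [e5]; nlinarith
        have e7 : Real.log N - 2 / H < Real.log n := by
          have : Real.log N < Real.log n + 2 / H := by
            rw [← sub_lt_iff_lt_add', lt_div_iff₀ hH0]
            nlinarith
          linarith
        have e8 : Real.exp (Real.log N - 2 / H) < n := by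
          rw [← Real.lt_log_iff_exp_lt hn0]; exact e7
        rw [Real.exp_sub, Real.exp_log hN0, div_eq_mul_inv, ← Real.exp_neg] at e8
        have e9 := Real.add_one_le_exp (-(2 / (H:ℝ)))
        rw [hy]
        calc (N:ℝ) * (1 - 2 / H) ≤ N * Real.exp (-(2 / (H:ℝ))) := by
              apply mul_le_mul_of_nonneg_left _ hN0.le
              linarith
          _ < n := e8
      rw [this]
      norm_num
  refine (sum_le_sum h1).trans ?_
  rw [sum_boole]
  have h2 : ((Icc 1 N).filter (fun n : ℕ => y < n)) ⊆ Ioc ⌊max y 0⌋₊ N := by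
    intro n hn
    rw [mem_filter, mem_Icc] at hn
    rw [mem_Ioc]
    refine ⟨?_, hn.1.2⟩
    rw [Nat.floor_lt (le_max_right _ _)]
    apply max_lt hn.2
    have : 0 < n := by omega
    exact_mod_cast this
  have h3 : (((Icc 1 N).filter (fun n : ℕ => y < n)).card : ℝ) ≤ ((N - ⌊max y 0⌋₊ : ℕ) : ℝ) := by
    rw [← Nat.card_Ioc]
    exact_mod_cast card_le_card h2
  refine h3.trans ?_
  have h4 : max y 0 < ⌊max y 0⌋₊ + 1 := Nat.lt_floor_add_one _
  have h5 : y ≤ max y 0 := le_max_left _ _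
  have h6 : ⌊max y 0⌋₊ ≤ N := by
    apply Nat.floor_le_of_le
    apply max_le _ hN0.le
    rw [hy]
    have : 0 ≤ 2 / (H:ℝ) := by positivity
    nlinarith
  rw [Nat.cast_sub h6]
  have h7 : y = N - 2 * N / H := by rw [hy]; ring
  linarith

/-- the prime character sum -/
noncomputable def PS (N f : ℕ) (ψ : DirichletCharacter ℂ f) : ℂ :=
  ∑ n ∈ Icc 1 N, ((if n.Prime then (1:ℝ) else 0 : ℝ) : ℂ) * ψ (n : ZMod f)

noncomputable def GS (g : ℕ → ℝ) (N f : ℕ) (ψ : DirichletCharacter ℂ f) : ℂ :=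
  ∑ n ∈ Icc 1 N, ((g n : ℝ) : ℂ) * ψ (n : ZMod f)

lemma GS_congr {g h : ℕ → ℝ} {N f : ℕ} {ψ : DirichletCharacter ℂ f}
    (hgh : ∀ n ∈ Icc 1 N, g n = h n) : GS g N f ψ = GS h N f ψ := by
  unfold GS
  apply sum_congr rfl
  intro n hn
  rw [hgh n hn]

lemma GS_add (g h : ℕ → ℝ) (N f : ℕ) (ψ : DirichletCharacter ℂ f) :
    GS (fun n => g n + h n) N f ψ = GS g N f ψ + GS h N f ψ := by
  unfold GS
  rw [← sum_add_distrib]
  apply sum_congr rfl
  intro n _
  push_cast
  ring

lemma GS_sub (g h : ℕ → ℝ) (N f : ℕ) (ψ : DirichletCharacter ℂ f) :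
    GS (fun n => g n - h n) N f ψ = GS g N f ψ - GS h N f ψ := by
  unfold GS
  rw [← sum_sub_distrib]
  apply sum_congr rfl
  intro n _
  push_cast
  ring

lemma GS_triv (g : ℕ → ℝ) (N f : ℕ) (ψ : DirichletCharacter ℂ f) :
    ‖GS g N f ψ‖ ≤ ∑ n ∈ Icc 1 N, |g n| := by
  unfold GS
  refine (norm_sum_le _ _).trans (sum_le_sum ?_)
  intro n _
  rw [norm_mul, Complex.norm_real, Real.norm_eq_abs]
  exact mul_le_of_le_one_right (abs_nonneg _) (ψ.norm_le_one _)

/-- type I sums -/
lemma GS_lw (z W N f : ℕ) (hf : 2 ≤ f) (ψ : DirichletCharacter ℂ f) (hψ : ψ.IsPrimitive) :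
    ‖GS (lw z W) N f ψ‖ ≤ W * (Real.sqrt f * (1 + Real.log f)) := by
  have hlog : 0 ≤ Real.log f := Real.log_natCast_nonneg f
  have e1 : ∀ n ∈ Icc 1 N, lw z W n = ∑ e ∈ (Icc 1 W).filter (fun e => e ∣ PP z),
      if e ∣ n then mr e else 0 := by
    intro n hn
    rw [mem_Icc] at hn
    unfold lw
    rw [← sum_filter]
    apply sum_congr _ fun _ _ => rfl
    ext e
    simp only [mem_filter, Nat.mem_divisors, mem_Icc, Nat.dvd_gcd_iff]
    constructor
    · rintro ⟨⟨⟨h1, h2⟩, h3⟩, h4⟩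
      exact ⟨⟨⟨Nat.pos_of_dvd_of_pos h1 (by omega), h4⟩, h2⟩, h1⟩
    · rintro ⟨⟨⟨h1, h2⟩, h3⟩, h4⟩
      exact ⟨⟨⟨h4, h3⟩, Nat.gcd_ne_zero_left (by omega)⟩, h2⟩
  have e2 : GS (lw z W) N f ψ = ∑ e ∈ (Icc 1 W).filter (fun e => e ∣ PP z),
      ((mr e : ℝ) : ℂ) * (ψ (e : ZMod f) * ∑ k ∈ Icc 1 (N / e), ψ (k : ZMod f)) := by
    rw [GS_congr e1]
    unfold GS
    have : ∀ n ∈ Icc 1 N, (((∑ e ∈ (Icc 1 W).filter (fun e => e ∣ PP z),
        if e ∣ n then mr e else 0 : ℝ)) : ℂ) * ψ (n : ZMod f) =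
        ∑ e ∈ (Icc 1 W).filter (fun e => e ∣ PP z), if e ∣ n then ((mr e : ℝ) : ℂ) * ψ (n : ZMod f) else 0 := by
      intro n _
      rw [Complex.ofReal_sum, sum_mul]
      apply sum_congr rfl
      intro e _
      split_ifs <;> simp
    rw [sum_congr rfl this, sum_comm]
    apply sum_congr rfl
    intro e he
    rw [mem_filter, mem_Icc] at he
    rw [← sum_filter, H343.PVaux.sum_multiples_Icc e N he.1.1 (fun n => ((mr e : ℝ) : ℂ) * ψ (n : ZMod f)),
      ← mul_sum]
    congr 1
    rw [mul_sum]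
    apply sum_congr rfl
    intro k _
    push_cast
    rw [map_mul]
  rw [e2]
  refine (norm_sum_le _ _).trans ?_
  calc ∑ e ∈ (Icc 1 W).filter (fun e => e ∣ PP z),
      ‖((mr e : ℝ) : ℂ) * (ψ (e : ZMod f) * ∑ k ∈ Icc 1 (N / e), ψ (k : ZMod f))‖
      ≤ ∑ _e ∈ (Icc 1 W).filter (fun e => e ∣ PP z), (Real.sqrt f * (1 + Real.log f)) := by
        apply sum_le_sum
        intro e _
        rw [norm_mul, norm_mul, Complex.norm_real, Real.norm_eq_abs]
        have h1 := abs_mr e
        have h2 : ‖ψ (e : ZMod f)‖ ≤ 1 := ψ.norm_le_one _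
        have h3 := H343.PVaux.PV_plain f (N / e) hf ψ hψ
        calc |mr e| * (‖ψ (e : ZMod f)‖ * ‖∑ k ∈ Icc 1 (N / e), ψ (k : ZMod f)‖)
            ≤ 1 * (1 * (Real.sqrt f * (1 + Real.log f))) := by gcongr
          _ = _ := by ring
    _ = (((Icc 1 W).filter (fun e => e ∣ PP z)).card : ℝ) * (Real.sqrt f * (1 + Real.log f)) := by
        rw [sum_const, nsmul_eq_mul]
    _ ≤ W * (Real.sqrt f * (1 + Real.log f)) := by
        have : (((Icc 1 W).filter (fun e => e ∣ PP z)).card : ℝ) ≤ W := by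
          have := card_filter_le (Icc 1 W) (fun e => e ∣ PP z)
          rw [Nat.card_Icc, Nat.add_sub_cancel] at this
          exact_mod_cast this
        gcongr

/-- the bilinear part as a double sum over `Icc 1 X` -/
lemma GS_c1 (z H x X N f : ℕ) (hH : 0 < H) (hz : 0 < z) (hX : X = x / z) (hN : N ≤ x)
    (ψ : DirichletCharacter ℂ f) :
    GS (c1 z H (kap H N)) N f ψ = ∑ p ∈ Icc 1 X, ∑ m ∈ Icc 1 X,
      if kap H p + kap H m + 2 ≤ kap H N then
        ((av z p : ℝ) : ℂ) * ψ (p : ZMod f) * (((bv z m : ℝ) : ℂ) * ψ (m : ZMod f)) else 0 := by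
  set G : ℕ → ℕ → ℂ := fun p m => if kap H p + kap H m + 2 ≤ kap H N then
        ((av z p : ℝ) : ℂ) * ψ (p : ZMod f) * (((bv z m : ℝ) : ℂ) * ψ (m : ZMod f)) else 0 with hG
  have e1 : GS (c1 z H (kap H N)) N f ψ = ∑ n ∈ Icc 1 N, ∑ i ∈ n.divisorsAntidiagonal, G i.1 i.2 := by
    unfold GS c1
    apply sum_congr rfl
    intro n _
    rw [Complex.ofReal_sum, sum_mul]
    apply sum_congr rfl
    intro i hi
    rw [Nat.mem_divisorsAntidiagonal] at hi
    simp only [hG]
    split_ifs
    · have : (n : ZMod f) = (i.1 : ZMod f) * (i.2 : ZMod f) := by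
        rw [← hi.1]; push_cast; rfl
      rw [this, map_mul]
      push_cast
      ring
    · simp
  have hG0 : ∀ p m, 0 < p → 0 < m → G p m ≠ 0 → p * m < N ∧ z ≤ p ∧ z ≤ m := by
    intro p m hp hm h
    simp only [hG] at h
    by_cases h1 : kap H p + kap H m + 2 ≤ kap H N
    · rw [if_pos h1] at h
      refine ⟨prod_lt H p m N hH hp hm h1, ?_, ?_⟩
      · by_contra h2
        push Not at h2
        apply h
        rw [av_zero h2]
        simp
      · by_contra h2
        push Not at h2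
        apply h
        rw [bv_zero h2]
        simp
    · rw [if_neg h1] at h
      exact absurd rfl h
  rw [e1, hyperC]
  have e2 : ∑ c ∈ Icc 1 N, ∑ b ∈ Icc 1 (N / c), G b c = ∑ c ∈ Icc 1 x, ∑ b ∈ Icc 1 x, G b c := by
    have h1 : ∀ c ∈ Icc 1 N, ∑ b ∈ Icc 1 (N / c), G b c = ∑ b ∈ Icc 1 x, G b c := by
      intro c hc
      rw [mem_Icc] at hc
      apply sum_subset
      · apply Icc_subset_Icc_right
        exact (Nat.div_le_self _ _).trans hN
      · intro b hb hb2
        rw [mem_Icc] at hb hb2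
        by_contra h
        have h2 := (hG0 b c (by omega) (by omega) h).1
        apply hb2
        refine ⟨hb.1, ?_⟩
        rw [Nat.le_div_iff_mul_le (by omega)]
        exact h2.le
    rw [sum_congr rfl h1]
    apply sum_subset (Icc_subset_Icc_right hN)
    intro c hc hc2
    rw [mem_Icc] at hc hc2
    apply sum_eq_zero
    intro b hb
    rw [mem_Icc] at hb
    by_contra h
    have h2 := (hG0 b c (by omega) (by omega) h).1
    apply hc2
    refine ⟨hc.1, ?_⟩
    nlinarith
  have hXx : X ≤ x := by rw [hX]; exact Nat.div_le_self _ _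
  have hle : ∀ p m, 0 < p → 0 < m → G p m ≠ 0 → p ≤ X ∧ m ≤ X := by
    intro p m hp hm h
    obtain ⟨h1, h2, h3⟩ := hG0 p m hp hm h
    rw [hX]
    constructor
    · rw [Nat.le_div_iff_mul_le hz]
      nlinarith
    · rw [Nat.le_div_iff_mul_le hz]
      nlinarith
  rw [e2, sum_comm]
  symm
  have e3 : ∀ p ∈ Icc 1 X, ∑ m ∈ Icc 1 X, G p m = ∑ m ∈ Icc 1 x, G p m := by
    intro p hp
    rw [mem_Icc] at hp
    apply sum_subset (Icc_subset_Icc_right hXx)
    intro m hm hm2
    rw [mem_Icc] at hm hm2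
    by_contra h
    exact hm2 ⟨hm.1, (hle p m (by omega) (by omega) h).2⟩
  rw [sum_congr rfl e3]
  apply sum_subset (Icc_subset_Icc_right hXx)
  intro p hp hp2
  rw [mem_Icc] at hp hp2
  apply sum_eq_zero
  intro m hm
  rw [mem_Icc] at hm
  by_contra h
  exact hp2 ⟨hp.1, (hle p m (by omega) (by omega) h).1⟩

/-- the main term -/
noncomputable def Mn (z H x X F J K f : ℕ) (ψ : DirichletCharacter ℂ f) : ℝ :=
  ∑ j ∈ range J, 2 * (Real.sqrt (x * (1 + 2 * X / (F : ℝ) ^ 2 + x / (F : ℝ) ^ 4)) *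
    (Real.sqrt (∑ i ∈ range K, wt H X F j i *
      ‖cell (Icc 1 X) (kap H) (fun p => ((av z p : ℝ) : ℂ) * ψ (p : ZMod f)) j i‖ ^ 2) *
    Real.sqrt (∑ i ∈ range K, wt H X F j i *
      ‖cell (Icc 1 X) (kap H) (fun p => ((bv z p : ℝ) : ℂ) * ψ (p : ZMod f)) j i‖ ^ 2)))

/-- **pointwise decomposition** -/
theorem PS_le (z W H x X F J K N f : ℕ) (hz : 2 ≤ z) (hH : 0 < H) (hF : 0 < F)
    (hX : X = x / z) (hN : N ≤ x) (hx : 1 ≤ x) (hK : ∀ p ∈ Icc 1 X, kap H p < K)
    (hJ : kap H x < 2 * 2 ^ J) (hf : 2 ≤ f) (ψ : DirichletCharacter ℂ f) (hψ : ψ.IsPrimitive) :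
    ‖PS N f ψ‖ ≤ z + 1 + W * (Real.sqrt f * (1 + Real.log f)) + ‖GS (gw z W) N f ψ‖ +
      ‖GS (sv z) N f ψ‖ + ‖GS (gb z H (kap H N)) N f ψ‖ + Mn z H x X F J K f ψ := by
  have hx0 : (1:ℝ) ≤ x := by exact_mod_cast hx
  have hF0 : (0:ℝ) < F := by exact_mod_cast hF
  have e1 : PS N f ψ = GS (fun n => if n.Prime ∧ n < z then 1 else 0) N f ψ +
      (GS (lw z W) N f ψ + GS (gw z W) N f ψ - GS (fun n => if n = 1 then 1 else 0) N f ψ -
        (GS (c1 z H (kap H N)) N f ψ + GS (gb z H (kap H N)) N f ψ) - GS (sv z) N f ψ) := by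
    rw [← GS_add, ← GS_add (c1 z H (kap H N)), ← GS_sub, ← GS_sub, ← GS_sub, ← GS_add]
    show GS (fun n => if n.Prime then 1 else 0) N f ψ = _
    apply GS_congr
    intro n hn
    rw [mem_Icc] at hn
    have h1 := ro_eq z W n (by omega)
    have h2 := cv_split z H (kap H N) n
    have h3 : sv z n = ro z n - (if n = 1 then 1 else 0) - av z n - cv z n := rfl
    have h4 : av z n = if n.Prime ∧ z ≤ n then 1 else 0 := rfl
    have h5 : (if n.Prime then (1:ℝ) else 0) = (if n.Prime ∧ n < z then 1 else 0) + av z n := by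
      rw [h4]
      by_cases h : n.Prime
      · rw [if_pos h]
        by_cases h' : n < z
        · rw [if_pos ⟨h, h'⟩, if_neg (by omega)]; norm_num
        · rw [if_neg (by tauto), if_pos ⟨h, by omega⟩]; norm_num
      · rw [if_neg h, if_neg (by tauto), if_neg (by tauto)]; norm_num
    rw [h5]
    linarith
  have b1 : ‖GS (fun n => if n.Prime ∧ n < z then 1 else 0) N f ψ‖ ≤ z := by
    refine (GS_triv _ _ _ _).trans ?_
    calc ∑ n ∈ Icc 1 N, |(if n.Prime ∧ n < z then (1:ℝ) else 0)|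
        ≤ ∑ n ∈ Icc 1 N, (if n < z then (1:ℝ) else 0) := by
          apply sum_le_sum
          intro n _
          by_cases h : n.Prime ∧ n < z
          · rw [if_pos h, if_pos h.2]; simp
          · rw [if_neg h]
            split_ifs <;> simp
      _ = (((Icc 1 N).filter (fun n => n < z)).card : ℝ) := by rw [sum_boole]
      _ ≤ ((range z).card : ℝ) := by
          have : (Icc 1 N).filter (fun n => n < z) ⊆ range z := by
            intro n hn
            rw [mem_filter] at hn
            rw [mem_range]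
            exact hn.2
          exact_mod_cast card_le_card this
      _ = z := by rw [card_range]
  have b2 := GS_lw z W N f hf ψ hψ
  have b3 : ‖GS (fun n => if n = 1 then 1 else 0) N f ψ‖ ≤ 1 := by
    refine (GS_triv _ _ _ _).trans ?_
    calc ∑ n ∈ Icc 1 N, |(if n = 1 then (1:ℝ) else 0)| = ∑ n ∈ Icc 1 N, (if n = 1 then (1:ℝ) else 0) := by
          apply sum_congr rfl
          intro n _
          split_ifs <;> simp
      _ ≤ 1 := by
          rw [sum_ite_eq']
          split_ifs <;> norm_num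
  have b4 : ‖GS (c1 z H (kap H N)) N f ψ‖ ≤ Mn z H x X F J K f ψ := by
    rw [GS_c1 z H x X N f hH (by omega) hX hN ψ]
    have hTx : kap H N ≤ kap H x := by
      unfold kap
      apply Nat.floor_le_floor
      apply mul_le_mul_of_nonneg_left _ (Nat.cast_nonneg _)
      rcases Nat.eq_zero_or_pos N with h | h
      · rw [h]; simp; exact Real.log_natCast_nonneg x
      · exact Real.log_le_log (by exact_mod_cast h) (by exact_mod_cast hN)
    apply whitney (Icc 1 X) (kap H) K hK _ _ (kap H N) J (lt_of_le_of_lt hTx hJ)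
      (fun j i => wt H X F j i) (fun j i => wt_pos _ _ _ _ _) _ (by positivity)
    intro j i k hijk
    apply wt_mul H X F hF x hx0 j i k
    have h1 : ((((i + k + 2) * 2 ^ j : ℕ) : ℝ)) ≤ kap H x := by exact_mod_cast hijk.trans hTx
    refine le_trans ?_ (exp_kap_le H x hH (by omega))
    apply Real.exp_le_exp.2
    gcongr
  rw [e1]
  refine (norm_add_le _ _).trans ?_
  have t1 := norm_sub_le (GS (lw z W) N f ψ + GS (gw z W) N f ψ - GS (fun n => if n = 1 then 1 else 0) N f ψ -
        (GS (c1 z H (kap H N)) N f ψ + GS (gb z H (kap H N)) N f ψ)) (GS (sv z) N f ψ)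
  have t2 := norm_sub_le (GS (lw z W) N f ψ + GS (gw z W) N f ψ - GS (fun n => if n = 1 then 1 else 0) N f ψ)
        (GS (c1 z H (kap H N)) N f ψ + GS (gb z H (kap H N)) N f ψ)
  have t3 := norm_sub_le (GS (lw z W) N f ψ + GS (gw z W) N f ψ) (GS (fun n => if n = 1 then 1 else 0) N f ψ)
  have t4 := norm_add_le (GS (lw z W) N f ψ) (GS (gw z W) N f ψ)
  have t5 := norm_add_le (GS (c1 z H (kap H N)) N f ψ) (GS (gb z H (kap H N)) N f ψ)
  linarith

end Pool.Agent.H441R3.BV
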