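import Pool.Agent.H441R3.BV.Asm

/-!
The final form.
-/

set_option autoImplicit false

open Finset Filter

namespace Pool.Agent.H441R3.BV

open Pool.Agent.H398R2.BV (Prim card_prim_le)
open Pool.Agent.H300R2.WEH
open Pool.Agent.H442R2.EHI (piAP lis pnt_err)

/-- eventual conditions in `l` -/
lemma ev_l (V q h : ℕ) (C : ℝ) : ∀ᶠ l : ℕ in atTop, 4000 + 3 * C ≤ l ∧
    48 * (q : ℝ) * (h : ℝ) * Real.log l ^ 2 ≤ l ∧ (l:ℝ) ^ (V + 3) ≤ Real.exp (l / 8) := by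
  have h1 : ∀ᶠ X : ℝ in atTop, 4000 + 3 * C ≤ X := eventually_ge_atTop _
  have h2 : ∀ᶠ X : ℝ in atTop, (48 * (q : ℝ) * (h : ℝ)) * Real.log X ^ 2 ≤ X ^ (1:ℝ) :=
    Pool.Agent.H398R2.BV.ev_log _ 2 1 one_pos
  have h3 : ∀ᶠ X : ℝ in atTop, X ^ (V + 3) ≤ Real.exp (X / 8) := by
    have h4 := isLittleO_pow_exp_pos_mul_atTop (V + 3) (show (0:ℝ) < 1 / 8 by norm_num)
    have h5 := h4.bound (show (0:ℝ) < 1 by norm_num)
    filter_upwards [h5, eventually_ge_atTop (0:ℝ)] with X hX hX0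
    rw [Real.norm_eq_abs, abs_of_nonneg (by positivity), Real.norm_eq_abs,
      abs_of_pos (Real.exp_pos _), one_mul] at hX
    have : (1:ℝ) / 8 * X = X / 8 := by ring
    rwa [this] at hX
  have h6 := tendsto_natCast_atTop_atTop (R := ℝ) |>.eventually (h1.and (h2.and h3))
  filter_upwards [h6] with l hl
  refine ⟨hl.1, ?_, hl.2.2⟩
  have := hl.2.1
  rwa [Real.rpow_one] at this

lemma floor_log_tendsto : Tendsto (fun N : ℕ => ⌊Real.log N⌋₊) atTop atTop :=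
  (tendsto_nat_floor_atTop (α := ℝ)).comp (Real.tendsto_log_atTop.comp tendsto_natCast_atTop_atTop)

lemma fin_alg (S1 S2 S3 u w a c v C1 : ℝ) (hu : 0 ≤ u) (hw : 0 ≤ w) (ha : 0 ≤ a) (hc : 0 ≤ c)
    (hv : 0 ≤ v) (hC : 0 ≤ C1) (h1 : S1 ≤ (1 + v) * u + 15 * C1 * w) (h2 : S2 ≤ u)
    (h3 : S3 ≤ (a + c + 1) * u) : S1 + S2 + S3 ≤ ((1 + v) + 15 * C1 + (2 + a + c)) * (u + w) := by
  have z1 : 0 ≤ C1 * u := by positivity
  have z2 : 0 ≤ ((1 + v) + (2 + a + c)) * w := by positivity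
  nlinarith

theorem main_nat (U : ℕ) : ∃ C : ℝ, 0 ≤ C ∧ ∃ x0 : ℕ, ∀ N : ℕ, x0 ≤ N → ∀ D : ℕ, D ^ 2 ≤ N →
    ∀ y : ℕ → ℝ, (∀ d, 2 ≤ y d ∧ ⌊y d⌋₊ ≤ N) → ∀ l : ℕ → ℕ, (∀ d ∈ Icc 1 D, (l d).Coprime d) →
    ∑ d ∈ Icc 1 D, err (y d) d (l d) ≤
      C * (N / Real.log N ^ U + D * Real.sqrt N * Real.log (Real.log N) ^ 2) := by
  set g := U + 2 with hg
  set V := U + 4 with hV
  set b := V + 2 with hb
  obtain ⟨x1, hsm⟩ := small_total (U + 2) (b + 1)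
  obtain ⟨C2, hpnt⟩ := pnt_err (U + 2)
  set C1 : ℝ := 9216 * ((2 * (g + V + 2) : ℕ) + 2) * ((g + V + 9 : ℕ) : ℝ) with hC1
  have hC1' : 0 ≤ C1 := by rw [hC1]; positivity
  have evl := floor_log_tendsto.eventually (ev_l V (g + V + 9) (2 * (g + V + 2)) C1)
  have evx : ∀ᶠ X : ℝ in atTop, (4:ℝ) ≤ Real.log X ∧ 4 * Real.log X ^ (U + 1) ≤ X ^ (1/2 : ℝ) ∧
      6 * Real.log X ^ (U + 2) ≤ X ^ (1:ℝ) ∧ 2 * Real.log X ^ g ≤ X ^ (1/2:ℝ) ∧ 4 ≤ X :=
    (Real.tendsto_log_atTop.eventually (eventually_ge_atTop 4)).and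
      ((Pool.Agent.H398R2.BV.ev_log 4 (U + 1) (1/2) (by norm_num)).and
      ((Pool.Agent.H398R2.BV.ev_log 6 (U + 2) 1 (by norm_num)).and
      ((Pool.Agent.H398R2.BV.ev_log 2 g (1/2) (by norm_num)).and (eventually_ge_atTop 4))))
  have evN := tendsto_natCast_atTop_atTop (R := ℝ) |>.eventually evx
  obtain ⟨x0, hx0⟩ := eventually_atTop.1 (evl.and (evN.and (eventually_ge_atTop x1)))
  refine ⟨(1 + 2 ^ V) + 15 * C1 + (2 + |C2| * 2 ^ (U + 2) + 2 ^ (U + 3)), by positivity, x0,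
    fun N hN D hD2 y hy l hl => ?_⟩
  obtain ⟨⟨l1, l2, l3⟩, ⟨w1, w2, w3, w4, w5⟩, hNx1⟩ := hx0 N hN
  have hN4 : 4 ≤ N := by exact_mod_cast w5
  have hNr : (0:ℝ) < N := by linarith
  set Λ := Real.log N with hΛ
  set L := ⌊Λ⌋₊ with hL
  have hΛ0 : 0 < Λ := by linarith
  have hLΛ : (L:ℝ) ≤ Λ := Nat.floor_le hΛ0.le
  have hL1 : Λ < L + 1 := Nat.lt_floor_add_one Λ
  have hL2 : Λ ≤ 2 * L := by linarith
  have hL3 : (3:ℝ) < L := by linarith
  have hL1' : 1 ≤ L := by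
    have : (1:ℝ) ≤ L := by linarith
    exact_mod_cast this
  have hsqrt : Real.sqrt N = (N:ℝ) ^ (1/2:ℝ) := Real.sqrt_eq_rpow _
  rw [← hsqrt] at w2 w4
  rw [Real.rpow_one] at w3
  set s := Real.sqrt N with hs
  have hs0 : 0 < s := Real.sqrt_pos.2 hNr
  have hs2 : s ^ 2 = N := Real.sq_sqrt hNr.le
  have hllg0 : 0 ≤ Real.log Λ ^ 2 := sq_nonneg _
  rcases Nat.eq_zero_or_pos D with hD0 | hD
  · subst hD0
    simp only [show Icc 1 0 = (∅ : Finset ℕ) from rfl, sum_empty]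
    positivity
  have hDs : (D:ℝ) ≤ s := by
    apply Real.le_sqrt_of_sq_le
    exact_mod_cast hD2
  -- grid
  set J := L ^ g with hJ
  have hJ1 : 1 ≤ J := Nat.one_le_pow _ _ hL1'
  have hJN : 2 * (J:ℝ) ≤ s := by
    refine le_trans ?_ w4
    rw [hJ]
    push_cast
    gcongr
  set NN : Finset ℕ := (Icc 1 J).image (gp N J) with hNN
  have hne : NN.Nonempty := by
    rw [hNN]
    exact (nonempty_Icc.2 hJ1).image _
  have hcard : (NN.card : ℝ) ≤ (L:ℝ) ^ g := by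
    have h1 : NN.card ≤ J := by
      refine card_image_le.trans ?_
      simp
    calc (NN.card : ℝ) ≤ J := by exact_mod_cast h1
      _ = (L:ℝ) ^ g := by rw [hJ]; push_cast; rfl
  have hmem : ∀ v ∈ NN, s ≤ (v:ℝ) ∧ v ≤ N := by
    intro v hv
    rw [hNN, mem_image] at hv
    obtain ⟨i, hi, rfl⟩ := hv
    exact gp_ge N J i hJ1 hi hJN
  have hs2' : 2 ≤ s := by
    have : (2:ℝ) = Real.sqrt (2 ^ 2) := (Real.sqrt_sq (by norm_num)).symm
    rw [this]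
    apply Real.sqrt_le_sqrt
    linarith
  have hmem2 : ∀ v ∈ NN, 2 ≤ v ∧ v ≤ N := by
    intro v hv
    obtain ⟨h1, h2⟩ := hmem v hv
    have : (2:ℝ) ≤ v := by linarith
    exact ⟨by exact_mod_cast this, h2⟩
  -- conductors
  have hcond := cond_sum N D L V b Λ C1 U rfl w1 (by omega) hC1' hD hD2 hL1' rfl hLΛ hL2 NN hne
    (fun F0 hF0 => hsm N hNx1 F0 hF0 NN hne hmem2)
    (fun F hF1 hF2 => level_core V g L N F C1 hC1 l1 l2 l3 hLΛ hL1 NN hne
      (fun v hv => (hmem2 v hv).2) hcard hF1 hF2)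
  -- pnt
  set P := |C2| * 2 ^ (U + 2) * (N / Λ ^ (U + 2)) with hP
  have hpn : ∀ v ∈ NN, |(((Icc 1 v).filter (fun p : ℕ => p.Prime)).card : ℝ) - lis v| ≤ P := by
    intro v hv
    obtain ⟨h1, h2⟩ := hmem v hv
    have h3 := hpnt v (hmem2 v hv).1
    have hv0 : (0:ℝ) < v := by linarith
    have hlv : Λ ≤ 2 * Real.log v := by
      have h4 := Real.log_le_log hs0 h1
      have h5 : Real.log s = Λ / 2 := by rw [hs, Real.log_sqrt hNr.le]
      linarith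
    have hlv0 : 0 < Real.log v := by linarith
    refine h3.trans ?_
    have h2' : (v:ℝ) ≤ N := by exact_mod_cast h2
    calc C2 * v / Real.log v ^ (U + 2) ≤ |C2| * N / (Λ / 2) ^ (U + 2) := by
          apply div_le_div₀ (by positivity) _ (by positivity)
          · apply pow_le_pow_left₀ (by positivity)
            linarith
          · calc C2 * v ≤ |C2| * v := by gcongr; exact le_abs_self _
              _ ≤ |C2| * N := by gcongr
      _ = P := by rw [hP, div_pow]; field_simp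
  -- pointwise
  have hpt : ∀ d ∈ Icc 1 D, err (y d) d (l d) ≤
      (1 / (Nat.totient d : ℝ)) * ∑ f ∈ d.divisors.filter (fun f => f ≠ 1),
        ∑ ψ ∈ Prim f, MX NN hne f ψ + 2 * Λ +
        (P + (2 * ((N:ℝ) / J + 1) + 4)) * (1 / (Nat.totient d : ℝ)) := by
    intro d hd
    have hd' := hd
    rw [mem_Icc] at hd
    have hφ : (1 : ℝ) ≤ Nat.totient d := by exact_mod_cast Nat.totient_pos.mpr (by omega)
    have a1 := err_le (y d) (hy d).1 d (l d) hd.1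
    obtain ⟨i, hi, a2⟩ := eL_grid_max N J ⌊y d⌋₊ d (l d) hJ1 (hy d).2 hd.1
    have hv : gp N J i ∈ NN := mem_image_of_mem _ hi
    have a3 := class_bound d (gp N J i) (l d) hd.1 (hl d hd') NN hne hv
    have a4 := hpn _ hv
    have a5 := omega_log d hd.1
    have hlD : 2 * Real.log d ≤ Λ := by
      have h3 : ((d:ℝ)) ^ 2 ≤ N := by
        have h4 : d ^ 2 ≤ N := (Nat.pow_le_pow_left hd.2 2).trans hD2
        exact_mod_cast h4
      have h4 := Real.log_le_log (by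
        have : (0:ℝ) < d := by
          have : 0 < d := by omega
          exact_mod_cast this
        positivity) h3
      rw [Real.log_pow] at h4
      push_cast at h4
      exact h4
    have a6 : |(((Icc 1 (gp N J i)).filter (fun p : ℕ => p.Prime)).card : ℝ) - lis (gp N J i)| /
        (Nat.totient d : ℝ) ≤ P * (1 / (Nat.totient d : ℝ)) := by
      rw [mul_one_div]
      gcongr
    have a7 : (P + (2 * ((N:ℝ) / J + 1) + 4)) * (1 / (Nat.totient d : ℝ)) =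
        P * (1 / (Nat.totient d : ℝ)) + 2 * ((N : ℝ) / J + 1) / (Nat.totient d : ℝ) +
        4 / (Nat.totient d : ℝ) := by ring
    rw [a7]
    unfold eL at a2 a1
    linarith
  refine (sum_le_sum hpt).trans ?_
  rw [sum_add_distrib, sum_add_distrib, sum_const, Nat.card_Icc, nsmul_eq_mul, ← mul_sum]
  have hinv : ∑ d ∈ Icc 1 D, 1 / (Nat.totient d : ℝ) ≤ Λ ^ 2 := by
    refine (sum_inv_tot D).trans ?_
    have h3 : ((D:ℝ)) ^ 2 ≤ N := by exact_mod_cast hD2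
    have hD1 : (1:ℝ) ≤ D := by exact_mod_cast hD
    have h4 := Real.log_le_log (by positivity) h3
    rw [Real.log_pow] at h4
    push_cast at h4
    have hlD0 : 0 ≤ Real.log D := Real.log_natCast_nonneg D
    apply pow_le_pow_left₀ (by linarith)
    linarith
  have hP0 : 0 ≤ P := by positivity
  have hJr : (0:ℝ) < J := by
    have : 0 < J := by omega
    exact_mod_cast this
  have b1 : ((D + 1 - 1 : ℕ) : ℝ) * (2 * Λ) ≤ N / Λ ^ U := by
    rw [Nat.add_sub_cancel, le_div_iff₀ (by positivity)]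
    calc (D:ℝ) * (2 * Λ) * Λ ^ U ≤ s * (2 * Λ) * Λ ^ U := by gcongr
      _ = s * (2 * Λ ^ (U + 1)) := by ring
      _ ≤ s * s := by
          apply mul_le_mul_of_nonneg_left _ hs0.le
          have : 0 ≤ Λ ^ (U + 1) := by positivity
          linarith
      _ = N := by rw [← sq, hs2]
  have b2 : (P + (2 * ((N:ℝ) / J + 1) + 4)) * ∑ d ∈ Icc 1 D, 1 / (Nat.totient d : ℝ) ≤
      (|C2| * 2 ^ (U + 2) + 2 ^ (U + 3) + 1) * (N / Λ ^ U) := by
    have hpos : 0 ≤ P + (2 * ((N:ℝ) / J + 1) + 4) := by positivity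
    refine (mul_le_mul_of_nonneg_left hinv hpos).trans ?_
    have c1 : P * Λ ^ 2 = |C2| * 2 ^ (U + 2) * (N / Λ ^ U) := by
      rw [hP]
      have : Λ ^ (U + 2) = Λ ^ U * Λ ^ 2 := pow_add _ _ _
      rw [this]
      field_simp
    have c2 : (N:ℝ) / J ≤ 2 ^ (U + 2) * (N / Λ ^ (U + 2)) := by
      rw [hJ]
      push_cast
      rw [mul_div_assoc', div_le_div_iff₀ (by positivity) (by positivity)]
      have h5 : Λ ^ (U + 2) ≤ 2 ^ (U + 2) * (L:ℝ) ^ g := by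
        rw [← mul_pow]
        exact pow_le_pow_left₀ hΛ0.le hL2 _
      calc (N:ℝ) * Λ ^ (U + 2) ≤ N * (2 ^ (U + 2) * (L:ℝ) ^ g) := by gcongr
        _ = 2 ^ (U + 2) * N * (L:ℝ) ^ g := by ring
    have c3 : (N:ℝ) / Λ ^ (U + 2) * Λ ^ 2 = N / Λ ^ U := by
      rw [pow_add]; field_simp
    have c4 : 6 * Λ ^ 2 ≤ N / Λ ^ U := by
      rw [le_div_iff₀ (by positivity)]
      calc 6 * Λ ^ 2 * Λ ^ U = 6 * Λ ^ (U + 2) := by ring
        _ ≤ N := w3
    calc (P + (2 * ((N:ℝ) / J + 1) + 4)) * Λ ^ 2 = P * Λ ^ 2 + 2 * (N / J) * Λ ^ 2 + 6 * Λ ^ 2 := by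
          ring
      _ ≤ |C2| * 2 ^ (U + 2) * (N / Λ ^ U) + 2 * (2 ^ (U + 2) * (N / Λ ^ (U + 2))) * Λ ^ 2 +
          N / Λ ^ U := by
          rw [c1]
          gcongr
      _ = |C2| * 2 ^ (U + 2) * (N / Λ ^ U) + 2 ^ (U + 3) * (N / Λ ^ (U + 2) * Λ ^ 2) +
          N / Λ ^ U := by ring
      _ = _ := by rw [c3]; ring
  have hu0 : 0 ≤ (N:ℝ) / Λ ^ U := by positivity
  have hw0 : 0 ≤ (D:ℝ) * s * Real.log Λ ^ 2 := by positivity
  have hc2 : 0 ≤ |C2| * 2 ^ (U + 2) := by positivity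
  have hu3 : (0:ℝ) ≤ 2 ^ (U + 3) := by positivity
  have hv3 : (0:ℝ) ≤ 2 ^ V := by positivity
  exact fin_alg _ _ _ _ _ _ _ _ _ hu0 hw0 hc2 hu3 hv3 hC1' hcond b1 b2

end Pool.Agent.H441R3.BV
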