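import Mathlib

/-!
Rough numbers and an identity for the primes.
-/

set_option autoImplicit false

open Finset

namespace Pool.Agent.H441R3.BV

/-- no prime factor below `z` -/
def Rough (z n : ℕ) : Prop := ∀ p : ℕ, p.Prime → p ∣ n → z ≤ p

lemma Rough.dvd {z m n : ℕ} (h : Rough z n) (hmn : m ∣ n) : Rough z m :=
  fun p hp hpm => h p hp (hpm.trans hmn)

lemma rough_one (z : ℕ) : Rough z 1 := by
  intro p hp h
  exact absurd (Nat.dvd_one.mp h) hp.one_lt.ne'

lemma rough_prime {z p : ℕ} (hp : p.Prime) : Rough z p ↔ z ≤ p := by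
  constructor
  · intro h; exact h p hp dvd_rfl
  · intro h q hq hqp
    rw [(Nat.prime_dvd_prime_iff_eq hq hp).mp hqp]
    exact h

open Classical in
noncomputable def ro (z n : ℕ) : ℝ := if Rough z n then 1 else 0

noncomputable def av (z n : ℕ) : ℝ := if n.Prime ∧ z ≤ n then 1 else 0

open Classical in
noncomputable def bv (z n : ℕ) : ℝ :=
  if 1 < n ∧ Rough z n then 1 / ((ArithmeticFunction.cardFactors n : ℝ) + 1) else 0

noncomputable def cv (z n : ℕ) : ℝ := ∑ i ∈ n.divisorsAntidiagonal, av z i.1 * bv z i.2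

noncomputable def sv (z n : ℕ) : ℝ := ro z n - (if n = 1 then 1 else 0) - av z n - cv z n

lemma av_nonneg (z n : ℕ) : 0 ≤ av z n := by unfold av; split_ifs <;> norm_num
lemma bv_nonneg (z n : ℕ) : 0 ≤ bv z n := by unfold bv; split_ifs <;> positivity
lemma av_le_ro (z n : ℕ) : av z n ≤ ro z n := by
  unfold av ro
  split_ifs with h1 h2
  · exact le_rfl
  · exact absurd ((rough_prime h1.1).2 h1.2) h2
  · norm_num
  · exact le_rfl
lemma ro_le_one (z n : ℕ) : ro z n ≤ 1 := by unfold ro; split_ifs <;> norm_num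
lemma ro_nonneg (z n : ℕ) : 0 ≤ ro z n := by unfold ro; split_ifs <;> norm_num
lemma bv_le_ro (z n : ℕ) : bv z n ≤ ro z n := by
  unfold bv ro
  by_cases h : 1 < n ∧ Rough z n
  · rw [if_pos h, if_pos h.2]
    rw [div_le_one (by positivity)]
    have : (0:ℝ) ≤ (ArithmeticFunction.cardFactors n : ℝ) := by positivity
    linarith
  · rw [if_neg h]; split_ifs <;> norm_num

lemma av_zero {z n : ℕ} (h : n < z) : av z n = 0 := by
  unfold av; rw [if_neg]; omega

lemma bv_zero {z n : ℕ} (h : n < z) : bv z n = 0 := by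
  unfold bv
  rw [if_neg]
  rintro ⟨h1, h2⟩
  obtain ⟨p, hp, hpn⟩ := Nat.exists_prime_and_dvd (by omega : n ≠ 1)
  have := h2 p hp hpn
  have := Nat.le_of_dvd (by omega) hpn
  omega

lemma cv_eq_divisors (z n : ℕ) : cv z n = ∑ d ∈ n.divisors, av z d * bv z (n / d) := by
  unfold cv
  exact Nat.sum_divisorsAntidiagonal (fun a b => av z a * bv z b)

lemma cv_not_rough {z n : ℕ} (hn : n ≠ 0) (h : ¬ Rough z n) : cv z n = 0 := by
  rw [cv_eq_divisors]
  apply sum_eq_zero
  intro d hd
  rw [Nat.mem_divisors] at hd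
  by_cases h1 : d.Prime ∧ z ≤ d
  · by_cases h2 : 1 < n / d ∧ Rough z (n / d)
    · exfalso
      apply h
      intro p hp hpn
      rw [← Nat.mul_div_cancel' hd.1] at hpn
      rcases (hp.dvd_mul).mp hpn with h3 | h3
      · rw [(Nat.prime_dvd_prime_iff_eq hp h1.1).mp h3]; exact h1.2
      · exact h2.2 p hp h3
    · unfold bv; rw [if_neg h2, mul_zero]
  · unfold av; rw [if_neg h1, zero_mul]

lemma cv_prime {z n : ℕ} (h : n.Prime) : cv z n = 0 := by
  rw [cv_eq_divisors]
  apply sum_eq_zero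
  intro d hd
  rw [Nat.mem_divisors] at hd
  rcases (Nat.dvd_prime h).mp hd.1 with h1 | h1
  · rw [h1]; unfold av; rw [if_neg (by simp [Nat.not_prime_one]), zero_mul]
  · rw [h1, Nat.div_self h.pos]
    unfold bv; rw [if_neg (by simp), mul_zero]

lemma cv_one (z : ℕ) : cv z 1 = 0 := by
  rw [cv_eq_divisors]
  simp [av, Nat.not_prime_one]

lemma cv_comp {z n : ℕ} (hn : 1 < n) (hp : ¬ n.Prime) (h : Rough z n) :
    cv z n = (n.primeFactors.card : ℝ) / (ArithmeticFunction.cardFactors n : ℝ) := by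
  have hn0 : n ≠ 0 := by omega
  have h1 : cv z n = ∑ p ∈ n.primeFactors, 1 / (ArithmeticFunction.cardFactors n : ℝ) := by
    rw [cv_eq_divisors]
    have hsub : n.primeFactors ⊆ n.divisors := fun p hp =>
      Nat.mem_divisors.2 ⟨Nat.dvd_of_mem_primeFactors hp, hn0⟩
    rw [← sum_subset hsub]
    · apply sum_congr rfl
      intro p hpn
      have hpp := Nat.prime_of_mem_primeFactors hpn
      have hpd := Nat.dvd_of_mem_primeFactors hpn
      obtain ⟨m, hm⟩ := hpd
      have hm0 : m ≠ 0 := by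
        rintro rfl
        apply hn0
        rw [hm, mul_zero]
      have hdiv : n / p = m := by
        rw [hm]; exact Nat.mul_div_cancel_left m hpp.pos
      have hm1 : 1 < m := by
        rcases Nat.lt_or_ge 1 m with h2 | h2
        · exact h2
        · have : m = 1 := by omega
          rw [this, mul_one] at hm
          exact absurd (hm ▸ hpp) hp
      have hrm : Rough z m := h.dvd ⟨p, by rw [hm, mul_comm]⟩
      rw [hdiv]
      unfold av bv
      rw [if_pos ⟨hpp, h p hpp (Nat.dvd_of_mem_primeFactors hpn)⟩, if_pos ⟨hm1, hrm⟩, one_mul]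
      congr 1
      rw [hm, ArithmeticFunction.cardFactors_mul hpp.ne_zero hm0,
        ArithmeticFunction.cardFactors_apply_prime hpp]
      push_cast
      ring
    · intro d hd hd2
      rw [Nat.mem_primeFactors] at hd2
      rw [Nat.mem_divisors] at hd
      unfold av
      rw [if_neg (by tauto), zero_mul]
  rw [h1, sum_const, nsmul_eq_mul]
  ring

lemma omega_le (n : ℕ) : n.primeFactors.card ≤ ArithmeticFunction.cardFactors n := by
  rw [ArithmeticFunction.cardFactors_apply]
  exact List.toFinset_card_le _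

lemma cv_nonneg (z n : ℕ) : 0 ≤ cv z n :=
  sum_nonneg fun _ _ => mul_nonneg (av_nonneg _ _) (bv_nonneg _ _)

lemma cv_le_one (z n : ℕ) (hn : n ≠ 0) : cv z n ≤ 1 := by
  by_cases hr : Rough z n
  · by_cases h1 : n = 1
    · rw [h1, cv_one]; norm_num
    · by_cases hp : n.Prime
      · rw [cv_prime hp]; norm_num
      · rw [cv_comp (by omega) hp hr]
        apply div_le_one_of_le₀
        · exact_mod_cast omega_le n
        · positivity
  · rw [cv_not_rough hn hr]; norm_num

lemma sv_facts (z n : ℕ) (hn : n ≠ 0) : |sv z n| ≤ 1 ∧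
    (sv z n ≠ 0 → ∃ p : ℕ, p.Prime ∧ z ≤ p ∧ p ^ 2 ∣ n) := by
  unfold sv
  by_cases hr : Rough z n
  · by_cases h1 : n = 1
    · subst h1
      have e1 : ro z 1 = 1 := by unfold ro; rw [if_pos hr]
      have e2 : av z 1 = 0 := by unfold av; rw [if_neg (by simp [Nat.not_prime_one])]
      rw [e1, e2, cv_one]
      simp
    · have e1 : ro z n = 1 := by unfold ro; rw [if_pos hr]
      by_cases hp : n.Prime
      · have e2 : av z n = 1 := by unfold av; rw [if_pos ⟨hp, (rough_prime hp).1 hr⟩]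
        rw [e1, e2, cv_prime hp, if_neg h1]
        simp
      · have e2 : av z n = 0 := by unfold av; rw [if_neg (by tauto)]
        rw [e1, e2, if_neg h1]
        have h3 := cv_nonneg z n
        have h4 := cv_le_one z n hn
        constructor
        · rw [abs_le]; constructor <;> linarith
        · intro h5
          by_cases hs : Squarefree n
          · exfalso
            apply h5
            rw [cv_comp (by omega) hp hr]
            have h6 := (ArithmeticFunction.cardDistinctFactors_eq_cardFactors_iff_squarefree hn).2 hs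
            have h7 : n.primeFactors.card = ArithmeticFunction.cardFactors n := by
              rw [← h6, ArithmeticFunction.cardDistinctFactors_apply]
              rfl
            rw [h7]
            have h8 : (ArithmeticFunction.cardFactors n : ℝ) ≠ 0 := by
              have := ArithmeticFunction.cardFactors_pos_iff_one_lt.2 (by omega : 1 < n)
              positivity
            rw [div_self h8]
            ring
          · rw [Nat.squarefree_iff_prime_squarefree] at hs
            push Not at hs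
            obtain ⟨p, hpp, hpd⟩ := hs
            exact ⟨p, hpp, hr p hpp ((dvd_mul_right p p).trans hpd), by rw [sq]; exact hpd⟩
  · have e1 : ro z n = 0 := by unfold ro; rw [if_neg hr]
    have h1 : n ≠ 1 := by
      rintro rfl
      exact hr (rough_one z)
    have e2 : av z n = 0 := by
      unfold av; rw [if_neg]
      rintro ⟨h2, h3⟩
      exact hr ((rough_prime h2).2 h3)
    rw [e1, e2, cv_not_rough hn hr, if_neg h1]
    simp

/-- the sum of the reciprocals of the rough numbers -/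
noncomputable def SS (z x : ℕ) : ℝ := ∑ m ∈ Icc 1 x, ro z m / m

lemma SS_nonneg (z x : ℕ) : 0 ≤ SS z x :=
  sum_nonneg fun _ _ => div_nonneg (ro_nonneg _ _) (Nat.cast_nonneg _)

lemma rough_coprime {z e m : ℕ} (he : 0 < e) (hez : e < z) (hm : Rough z m) : e.Coprime m := by
  rw [Nat.coprime_iff_gcd_eq_one]
  by_contra h
  obtain ⟨p, hp, hpg⟩ := Nat.exists_prime_and_dvd h
  have h1 : p ∣ e := hpg.trans (Nat.gcd_dvd_left _ _)
  have h2 : p ∣ m := hpg.trans (Nat.gcd_dvd_right _ _)
  have := hm p hp h2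
  have := Nat.le_of_dvd he h1
  omega

lemma SS_le (z x : ℕ) (hz : 2 ≤ z) (hx : 1 ≤ x) :
    SS z x * Real.log z ≤ 1 + Real.log ((x * z : ℕ) : ℝ) := by
  classical
  have h1 : Real.log z ≤ ∑ e ∈ Icc 1 (z - 1), 1 / (e : ℝ) := by
    have h := log_add_one_le_harmonic (z - 1)
    rw [harmonic_eq_sum_Icc] at h
    push_cast at h
    rw [Nat.cast_sub (by omega : 1 ≤ z)] at h
    simp only [Nat.cast_one, sub_add_cancel] at h
    simpa [one_div] using h
  have h2 : ∑ n ∈ Icc 1 (x * z), 1 / (n : ℝ) ≤ 1 + Real.log ((x * z : ℕ) : ℝ) := by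
    have h := harmonic_le_one_add_log (x * z)
    rw [harmonic_eq_sum_Icc] at h
    push_cast at h ⊢
    simpa [one_div] using h
  refine le_trans ?_ h2
  refine (mul_le_mul_of_nonneg_left h1 (SS_nonneg z x)).trans ?_
  unfold SS
  have e1 : ∑ m ∈ Icc 1 x, ro z m / (m : ℝ) = ∑ m ∈ (Icc 1 x).filter (fun m => Rough z m), 1 / (m : ℝ) := by
    rw [sum_filter]
    apply sum_congr rfl
    intro m _
    unfold ro
    split_ifs <;> simp
  rw [e1, sum_mul_sum, ← sum_product']
  have hinj : Set.InjOn (fun q : ℕ × ℕ => q.1 * q.2)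
      ((((Icc 1 x).filter (fun m => Rough z m)) ×ˢ Icc 1 (z - 1) : Finset (ℕ × ℕ)) : Set (ℕ × ℕ)) := by
    rintro ⟨m, e⟩ hq ⟨m', e'⟩ hq' heq
    rw [mem_coe, mem_product, mem_filter, mem_Icc, mem_Icc] at hq hq'
    simp only at hq hq' heq
    have c1 := rough_coprime (e := e) (by omega) (by omega : e < z) hq'.1.2
    have c2 := rough_coprime (e := e') (by omega) (by omega : e' < z) hq.1.2
    have d1 : e ∣ e' := by
      have : e ∣ m' * e' := by rw [← heq]; exact dvd_mul_left _ _
      exact c1.dvd_of_dvd_mul_left this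
    have d2 : e' ∣ e := by
      have : e' ∣ m * e := by rw [heq]; exact dvd_mul_left _ _
      exact c2.dvd_of_dvd_mul_left this
    have he : e = e' := Nat.dvd_antisymm d1 d2
    subst he
    have : m = m' := Nat.eq_of_mul_eq_mul_right (by omega) heq
    rw [this]
  have e2 : ∑ q ∈ ((Icc 1 x).filter (fun m => Rough z m)) ×ˢ Icc 1 (z - 1), 1 / (q.1 : ℝ) * (1 / (q.2 : ℝ)) =
      ∑ n ∈ (((Icc 1 x).filter (fun m => Rough z m)) ×ˢ Icc 1 (z - 1)).image (fun q : ℕ × ℕ => q.1 * q.2),
        1 / (n : ℝ) := by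
    rw [sum_image hinj]
    apply sum_congr rfl
    intro q _
    push_cast
    rw [div_mul_div_comm, one_mul]
  rw [e2]
  apply sum_le_sum_of_subset_of_nonneg
  · intro n hn
    rw [mem_image] at hn
    obtain ⟨⟨m, e⟩, hq, rfl⟩ := hn
    rw [mem_product, mem_filter, mem_Icc, mem_Icc] at hq
    simp only at hq ⊢
    rw [mem_Icc]
    exact ⟨Nat.mul_pos (by omega) (by omega), Nat.mul_le_mul (by omega) (by omega)⟩
  · intro n _ _
    positivity

lemma sum_av (z X x : ℕ) (hX : X ≤ x) : ∑ p ∈ Icc 1 X, av z p ^ 2 / (p : ℝ) ≤ SS z x := by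
  unfold SS
  refine (sum_le_sum_of_subset_of_nonneg (Icc_subset_Icc_right hX) fun i _ _ => by positivity).trans ?_
  apply sum_le_sum
  intro p _
  gcongr
  have h1 := av_le_ro z p
  have h2 := ro_le_one z p
  have h3 := av_nonneg z p
  nlinarith

lemma sum_bv (z X x : ℕ) (hX : X ≤ x) : ∑ p ∈ Icc 1 X, bv z p ^ 2 / (p : ℝ) ≤ SS z x := by
  unfold SS
  refine (sum_le_sum_of_subset_of_nonneg (Icc_subset_Icc_right hX) fun i _ _ => by positivity).trans ?_
  apply sum_le_sum
  intro p _
  gcongr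
  have h1 := bv_le_ro z p
  have h2 := ro_le_one z p
  have h3 := bv_nonneg z p
  nlinarith

/-- `sv` is small in mean square -/
lemma sum_sv (z x : ℕ) (hz : 2 ≤ z) : ∑ n ∈ Icc 1 x, sv z n ^ 2 ≤ 2 * x / z := by
  classical
  have hz0 : (0:ℝ) < z := by
    have : 0 < z := by omega
    exact_mod_cast this
  have h1 : ∑ n ∈ Icc 1 x, sv z n ^ 2 ≤
      ∑ n ∈ Icc 1 x, ∑ p ∈ Icc z x, (if p ^ 2 ∣ n then (1:ℝ) else 0) := by
    apply sum_le_sum
    intro n hn
    rw [mem_Icc] at hn
    obtain ⟨h1, h2⟩ := sv_facts z n (by omega)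
    by_cases h3 : sv z n = 0
    · rw [h3]
      have : (0:ℝ) ≤ ∑ p ∈ Icc z x, (if p ^ 2 ∣ n then (1:ℝ) else 0) :=
        sum_nonneg fun _ _ => by split_ifs <;> norm_num
      simpa using this
    · obtain ⟨p, hp, hzp, hpn⟩ := h2 h3
      have hpx : p ≤ x := by
        have := Nat.le_of_dvd (by omega) hpn
        nlinarith [hp.one_lt]
      have h4 : (1:ℝ) ≤ ∑ p ∈ Icc z x, (if p ^ 2 ∣ n then (1:ℝ) else 0) := by
        have := single_le_sum (f := fun p => if p ^ 2 ∣ n then (1:ℝ) else 0)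
          (fun i _ => by split_ifs <;> norm_num) (mem_Icc.2 ⟨hzp, hpx⟩)
        simp only [if_pos hpn] at this
        exact this
      have h5 : sv z n ^ 2 ≤ 1 := by
        rw [← sq_abs]
        exact pow_le_one₀ (abs_nonneg _) h1
      linarith
  refine h1.trans ?_
  rw [sum_comm]
  have h2 : ∀ p ∈ Icc z x, ∑ n ∈ Icc 1 x, (if p ^ 2 ∣ n then (1:ℝ) else 0) ≤ x * (1 / ((p:ℝ) ^ 2)) := by
    intro p hp
    rw [mem_Icc] at hp
    rw [sum_boole]
    have h3 : ((Icc 1 x).filter (fun n => p ^ 2 ∣ n)).card = x / p ^ 2 := by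
      have := Nat.Ioc_filter_dvd_card_eq_div x (p ^ 2)
      rw [← this]
      rfl
    rw [h3]
    have := @Nat.cast_div_le ℝ _ _ _ x (p ^ 2)
    push_cast at this
    rw [mul_one_div]
    exact this
  refine (sum_le_sum h2).trans ?_
  rw [← mul_sum]
  have h3 : ∑ p ∈ Icc z x, 1 / ((p:ℝ) ^ 2) ≤ 2 / (z:ℝ) := by
    rcases Nat.lt_or_ge x z with h | h
    · rw [Icc_eq_empty (by omega), sum_empty]
      positivity
    · have key : ∀ y : ℕ, z ≤ y → ∑ p ∈ Icc z y, 1 / ((p:ℝ) ^ 2) ≤ 2 / (z:ℝ) - 1 / (y:ℝ) := by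
        intro y hy
        induction y, hy using Nat.le_induction with
        | base =>
          simp only [Icc_self, sum_singleton]
          have hz1 : (2:ℝ) ≤ z := by exact_mod_cast hz
          rw [← sub_nonneg]
          have : 2 / (z:ℝ) - 1 / z - 1 / (z:ℝ) ^ 2 = (z - 1) / (z:ℝ) ^ 2 := by field_simp; ring
          rw [this]
          apply div_nonneg <;> nlinarith
        | succ n hn ih =>
          rw [sum_Icc_succ_top (by omega)]
          have hn0 : (0:ℝ) < n := by
            have : 0 < n := by omega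
            exact_mod_cast this
          have : 1 / (((n + 1 : ℕ):ℝ) ^ 2) ≤ 1 / (n:ℝ) - 1 / ((n + 1 : ℕ):ℝ) := by
            push_cast
            rw [← sub_nonneg]
            have : 1 / (n:ℝ) - 1 / ((n:ℝ) + 1) - 1 / ((n:ℝ) + 1) ^ 2 = 1 / (n * ((n:ℝ) + 1) ^ 2) := by
              field_simp
              ring
            rw [this]
            positivity
          linarith
      have h4 := key x h
      have h5 : (0:ℝ) ≤ 1 / (x:ℝ) := by positivity
      linarith
  calc (x:ℝ) * ∑ p ∈ Icc z x, 1 / ((p:ℝ) ^ 2) ≤ x * (2 / z) := by gcongr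
    _ = _ := by ring

/-- product of the primes below `z` -/
def PP (z : ℕ) : ℕ := ∏ p ∈ (range z).filter Nat.Prime, p

lemma PP_ne (z : ℕ) : PP z ≠ 0 := by
  unfold PP
  rw [prod_ne_zero_iff]
  intro p hp
  exact (mem_filter.1 hp).2.ne_zero

lemma prime_dvd_PP {z p : ℕ} (hp : p.Prime) : p ∣ PP z ↔ p < z := by
  unfold PP
  constructor
  · intro h
    obtain ⟨q, hq, hpq⟩ := (Prime.dvd_finsetProd_iff hp.prime _).1 h
    rw [mem_filter, mem_range] at hq
    rw [(Nat.prime_dvd_prime_iff_eq hp hq.2).mp hpq]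
    exact hq.1
  · intro h
    exact dvd_prod_of_mem _ (mem_filter.2 ⟨mem_range.2 h, hp⟩)

lemma PP_sqf (z : ℕ) : Squarefree (PP z) := by
  unfold PP
  apply Finset.squarefree_prod_of_pairwise_isCoprime
  · intro p hp q hq hpq
    rw [mem_coe, mem_filter] at hp hq
    exact Nat.coprime_iff_isRelPrime.mp ((Nat.coprime_primes hp.2 hq.2).2 hpq)
  · intro p hp
    exact (mem_filter.1 hp).2.squarefree

lemma gcd_one_iff {z n : ℕ} : n.gcd (PP z) = 1 ↔ Rough z n := by
  constructor
  · intro h p hp hpn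
    by_contra hlt
    push Not at hlt
    have h1 := Nat.dvd_gcd hpn ((prime_dvd_PP hp).2 hlt)
    rw [h] at h1
    exact absurd (Nat.dvd_one.mp h1) hp.one_lt.ne'
  · intro h
    by_contra hne
    obtain ⟨p, hp, hpg⟩ := Nat.exists_prime_and_dvd hne
    have h1 := h p hp (hpg.trans (Nat.gcd_dvd_left _ _))
    have h2 := (prime_dvd_PP hp).1 (hpg.trans (Nat.gcd_dvd_right _ _))
    omega

/-- Moebius function as a real number -/
noncomputable def mr (e : ℕ) : ℝ := ((ArithmeticFunction.moebius e : ℤ) : ℝ)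

lemma abs_mr (e : ℕ) : |mr e| ≤ 1 := by
  unfold mr
  exact_mod_cast ArithmeticFunction.abs_moebius_le_one (n := e)

lemma sum_mr (n : ℕ) (hn : n ≠ 0) : ∑ e ∈ n.divisors, mr e = if n = 1 then 1 else 0 := by
  have h : ((ArithmeticFunction.moebius : ArithmeticFunction ℤ) *
    ((ArithmeticFunction.zeta : ArithmeticFunction ℕ) : ArithmeticFunction ℤ)) n =
      (1 : ArithmeticFunction ℤ) n := by
    rw [ArithmeticFunction.moebius_mul_coe_zeta]
  rw [ArithmeticFunction.coe_mul_zeta_apply, ArithmeticFunction.one_apply] at h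
  unfold mr
  exact_mod_cast h

/-- high part of the Legendre sum -/
noncomputable def gw (z W n : ℕ) : ℝ := ∑ e ∈ (n.gcd (PP z)).divisors.filter (fun e => W < e), mr e

/-- low part -/
noncomputable def lw (z W n : ℕ) : ℝ := ∑ e ∈ (n.gcd (PP z)).divisors.filter (fun e => e ≤ W), mr e

lemma ro_eq (z W n : ℕ) (hn : n ≠ 0) : ro z n = lw z W n + gw z W n := by
  have hg : n.gcd (PP z) ≠ 0 := Nat.gcd_ne_zero_left hn
  have h1 : ro z n = ∑ e ∈ (n.gcd (PP z)).divisors, mr e := by
    rw [sum_mr _ hg]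
    unfold ro
    by_cases h : Rough z n
    · rw [if_pos h, if_pos (gcd_one_iff.2 h)]
    · rw [if_neg h, if_neg (fun h' => h (gcd_one_iff.1 h'))]
  rw [h1]
  unfold lw gw
  rw [← sum_filter_add_sum_filter_not (n.gcd (PP z)).divisors (fun e => e ≤ W)]
  congr 1
  apply sum_congr _ fun _ _ => rfl
  ext e
  simp only [mem_filter, not_le]

lemma gcd_le_pow (z n : ℕ) (hz : 0 < z) (hn : n ≠ 0) :
    n.gcd (PP z) ≤ z ^ n.primeFactors.card := by
  have hg : n.gcd (PP z) ≠ 0 := Nat.gcd_ne_zero_left hn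
  have hs : Squarefree (n.gcd (PP z)) := (PP_sqf z).squarefree_of_dvd (Nat.gcd_dvd_right _ _)
  rw [← Nat.prod_primeFactors_of_squarefree hs]
  have h1 : (n.gcd (PP z)).primeFactors ⊆ n.primeFactors :=
    Nat.primeFactors_mono (Nat.gcd_dvd_left _ _) hn
  calc ∏ p ∈ (n.gcd (PP z)).primeFactors, p ≤ ∏ _p ∈ (n.gcd (PP z)).primeFactors, z := by
        apply prod_le_prod'
        intro p hp
        have hpp := Nat.prime_of_mem_primeFactors hp
        exact ((prime_dvd_PP hpp).1 ((Nat.dvd_of_mem_primeFactors hp).trans (Nat.gcd_dvd_right _ _))).le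
    _ = z ^ (n.gcd (PP z)).primeFactors.card := by rw [prod_const]
    _ ≤ z ^ n.primeFactors.card := Nat.pow_le_pow_right hz (card_le_card h1)

end Pool.Agent.H441R3.BV
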