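import Pool.Agent.H441R3.BV.Whit
import Pool.Agent.H441R3.BV.Ident
import Pool.Agent.H398R2.BA1
import Pool.Agent.H343R2.PV

/-!
Large sieve bounds for cells, mean square bounds.
-/

set_option autoImplicit false

open Finset

namespace Pool.Agent.H441R3.BV

open Pool.Agent.H398R2.BV (Prim card_prim_le)
open Pool.Agent.Helper112

/-- upper end of a cell -/
noncomputable def Pu (H j i : ℕ) : ℝ := Real.exp (((i + 1) * 2 ^ j : ℕ) / (H : ℝ))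

/-- the weight of a cell -/
noncomputable def wt (H X F j i : ℕ) : ℝ := 1 / (Pu H j i * (1 + min (Pu H j i) X / (F : ℝ) ^ 2))

/-- the cell function -/
noncomputable def kap (H n : ℕ) : ℕ := ⌊(H : ℝ) * Real.log n⌋₊

lemma Pu_pos (H j i : ℕ) : 0 < Pu H j i := Real.exp_pos _

lemma wt_pos (H X F j i : ℕ) : 0 < wt H X F j i := by
  have := Pu_pos H j i
  have h2 : 0 ≤ min (Pu H j i) X := le_min this.le (Nat.cast_nonneg _)
  unfold wt
  positivity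

lemma kap_lt {H n m : ℕ} (hH : 0 < H) (hn : 0 < n) (h : kap H n < m) :
    (n : ℝ) < Real.exp ((m : ℝ) / H) := by
  have hH0 : (0:ℝ) < H := by exact_mod_cast hH
  have hn0 : (0:ℝ) < n := by exact_mod_cast hn
  unfold kap at h
  have hnn : 0 ≤ (H : ℝ) * Real.log n := mul_nonneg hH0.le (Real.log_natCast_nonneg n)
  rw [Nat.floor_lt hnn] at h
  rw [← Real.log_lt_iff_lt_exp hn0, lt_div_iff₀ hH0, mul_comm]
  exact h

lemma cell_lt {H n j i : ℕ} (hH : 0 < H) (hn : 0 < n) (h : kap H n / 2 ^ j = i) :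
    (n : ℝ) < Pu H j i := by
  unfold Pu
  apply kap_lt hH hn
  have := Nat.lt_div_mul_add (a := kap H n) (b := 2 ^ j) (by positivity)
  rw [h] at this
  linarith

/-- large sieve for one cell -/
lemma cell_ls (H X F j i : ℕ) (hH : 0 < H) (hF : 0 < F) (a : ℕ → ℝ) :
    ∑ f ∈ Icc 1 (2 * F), ((f : ℝ) / (Nat.totient f : ℝ)) * ∑ ψ ∈ Prim f,
      wt H X F j i * ‖cell (Icc 1 X) (kap H) (fun p => (a p : ℂ) * ψ (p : ZMod f)) j i‖ ^ 2 ≤
      24 * (F : ℝ) ^ 2 * ∑ p ∈ Icc 1 X with kap H p / 2 ^ j = i, a p ^ 2 / (p : ℝ) := by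
  classical
  have hP := Pu_pos H j i
  have hF0 : (0:ℝ) < F := by exact_mod_cast hF
  set N : ℕ := min X ⌊Pu H j i⌋₊ with hN
  set α : ℕ → ℂ := fun n => if kap H n / 2 ^ j = i then (a n : ℂ) else 0 with hα
  have hNP : (N : ℝ) ≤ min (Pu H j i) X := by
    apply le_min
    · refine le_trans ?_ (Nat.floor_le hP.le)
      exact_mod_cast min_le_right _ _
    · exact_mod_cast min_le_left _ _
  have hset : ∀ (M : Type) [AddCommMonoid M] (g : ℕ → M),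
      ∑ n ∈ Icc 1 N, (if kap H n / 2 ^ j = i then g n else 0) =
      ∑ p ∈ Icc 1 X with kap H p / 2 ^ j = i, g p := by
    intro M _ g
    rw [← sum_filter]
    apply sum_congr _ fun _ _ => rfl
    ext n
    simp only [mem_filter, mem_Icc]
    constructor
    · rintro ⟨⟨h1, h2⟩, h3⟩
      exact ⟨⟨h1, h2.trans (min_le_left _ _)⟩, h3⟩
    · rintro ⟨⟨h1, h2⟩, h3⟩
      refine ⟨⟨h1, le_min h2 ?_⟩, h3⟩
      apply Nat.le_floor
      exact (cell_lt hH (by omega) h3).le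
  have hcell : ∀ (f : ℕ) (ψ : DirichletCharacter ℂ f),
      cell (Icc 1 X) (kap H) (fun p => (a p : ℂ) * ψ (p : ZMod f)) j i =
      ∑ n ∈ Icc 1 N, α n * ψ (n : ZMod f) := by
    intro f ψ
    unfold cell
    rw [← hset ℂ (fun p => (a p : ℂ) * ψ (p : ZMod f))]
    apply sum_congr rfl
    intro n _
    simp only [hα]
    split_ifs <;> simp
  have hls := mult_large_sieve N (2 * F) α
  have h1 : ∑ n ∈ Icc 1 N, ‖α n‖ ^ 2 = ∑ p ∈ Icc 1 X with kap H p / 2 ^ j = i, a p ^ 2 := by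
    rw [← hset ℝ (fun p => a p ^ 2)]
    apply sum_congr rfl
    intro n _
    simp only [hα]
    split_ifs
    · rw [Complex.norm_real, Real.norm_eq_abs, sq_abs]
    · simp
  rw [h1] at hls
  have h2 : ∑ f ∈ Icc 1 (2 * F), ((f : ℝ) / (Nat.totient f : ℝ)) * ∑ ψ ∈ Prim f,
      wt H X F j i * ‖cell (Icc 1 X) (kap H) (fun p => (a p : ℂ) * ψ (p : ZMod f)) j i‖ ^ 2 =
      wt H X F j i * ∑ f ∈ Icc 1 (2 * F), ((f : ℝ) / (Nat.totient f : ℝ)) * ∑ ψ ∈ Prim f,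
      ‖∑ n ∈ Icc 1 N, α n * ψ (n : ZMod f)‖ ^ 2 := by
    rw [mul_sum]
    apply sum_congr rfl
    intro f _
    rw [← mul_sum]
    simp_rw [hcell]
    ring
  rw [h2]
  have h3 : ∑ p ∈ Icc 1 X with kap H p / 2 ^ j = i, a p ^ 2 ≤
      Pu H j i * ∑ p ∈ Icc 1 X with kap H p / 2 ^ j = i, a p ^ 2 / (p : ℝ) := by
    rw [mul_sum]
    apply sum_le_sum
    intro p hp
    rw [mem_filter, mem_Icc] at hp
    have hp0 : (0:ℝ) < p := by
      have : 0 < p := by omega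
      exact_mod_cast this
    have h4 := (cell_lt hH (by omega : 0 < p) hp.2).le
    calc a p ^ 2 = p * (a p ^ 2 / p) := by field_simp
      _ ≤ Pu H j i * (a p ^ 2 / p) := mul_le_mul_of_nonneg_right h4 (by positivity)
  set S := ∑ p ∈ Icc 1 X with kap H p / 2 ^ j = i, a p ^ 2 / (p : ℝ) with hS
  have hS0 : 0 ≤ S := sum_nonneg fun _ _ => by positivity
  set m := min (Pu H j i) (X : ℝ) with hm
  have hm0 : 0 ≤ m := le_min hP.le (Nat.cast_nonneg _)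
  have hls' : ∑ f ∈ Icc 1 (2 * F), ((f : ℝ) / (Nat.totient f : ℝ)) * ∑ ψ ∈ Prim f,
      ‖∑ n ∈ Icc 1 N, α n * ψ (n : ZMod f)‖ ^ 2 ≤
      6 * (N + ((2 * F : ℕ) : ℝ) ^ 2) * ∑ p ∈ Icc 1 X with kap H p / 2 ^ j = i, a p ^ 2 := hls
  calc wt H X F j i * ∑ f ∈ Icc 1 (2 * F), ((f : ℝ) / (Nat.totient f : ℝ)) * ∑ ψ ∈ Prim f,
      ‖∑ n ∈ Icc 1 N, α n * ψ (n : ZMod f)‖ ^ 2
      ≤ wt H X F j i * (6 * (N + ((2 * F : ℕ) : ℝ) ^ 2) *
        ∑ p ∈ Icc 1 X with kap H p / 2 ^ j = i, a p ^ 2) :=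
        mul_le_mul_of_nonneg_left hls' (wt_pos _ _ _ _ _).le
    _ ≤ wt H X F j i * (6 * (m + ((2 * F : ℕ) : ℝ) ^ 2) * (Pu H j i * S)) := by
        apply mul_le_mul_of_nonneg_left _ (wt_pos _ _ _ _ _).le
        gcongr
    _ = 24 * (F:ℝ) ^ 2 * S * ((m / (4 * (F:ℝ) ^ 2) + 1) / (1 + m / (F:ℝ) ^ 2)) := by
        unfold wt
        rw [← hm]
        have : (1 + m / (F:ℝ) ^ 2) ≠ 0 := by positivity
        push_cast
        field_simp
        ring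
    _ ≤ 24 * (F:ℝ) ^ 2 * S * 1 := by
        apply mul_le_mul_of_nonneg_left _ (by positivity)
        rw [div_le_one (by positivity)]
        have : m / (4 * (F:ℝ) ^ 2) ≤ m / (F:ℝ) ^ 2 := by
          apply div_le_div_of_nonneg_left hm0 (by positivity)
          nlinarith [sq_nonneg (F:ℝ)]
        linarith
    _ = _ := by ring

/-- large sieve for all the cells of one level -/
lemma level_ls (H X F j K : ℕ) (hH : 0 < H) (hF : 0 < F) (hK : ∀ p ∈ Icc 1 X, kap H p < K)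
    (a : ℕ → ℝ) :
    ∑ f ∈ Icc 1 (2 * F), ((f : ℝ) / (Nat.totient f : ℝ)) * ∑ ψ ∈ Prim f,
      ∑ i ∈ range K, wt H X F j i *
        ‖cell (Icc 1 X) (kap H) (fun p => (a p : ℂ) * ψ (p : ZMod f)) j i‖ ^ 2 ≤
      24 * (F : ℝ) ^ 2 * ∑ p ∈ Icc 1 X, a p ^ 2 / (p : ℝ) := by
  have hmaps : ∀ p ∈ Icc 1 X, kap H p / 2 ^ j ∈ range K := by
    intro p hp
    rw [mem_range]
    exact lt_of_le_of_lt (Nat.div_le_self _ _) (hK p hp)
  rw [← sum_fiberwise_of_maps_to hmaps, mul_sum]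
  refine le_trans (le_of_eq ?_) (sum_le_sum fun i _ => cell_ls H X F j i hH hF a)
  rw [sum_comm]
  apply sum_congr rfl
  intro f _
  rw [← mul_sum, sum_comm]

/-- the product of two weights -/
lemma wt_mul (H X F : ℕ) (hF : 0 < F) (Y : ℝ) (hY : 1 ≤ Y) (j i k : ℕ)
    (h : Real.exp ((((i + k + 2) * 2 ^ j : ℕ) : ℝ) / H) ≤ Y) :
    1 ≤ (Y * (1 + 2 * X / (F : ℝ) ^ 2 + Y / (F : ℝ) ^ 4)) * (wt H X F j i * wt H X F j k) := by
  have hP := Pu_pos H j i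
  have hQ := Pu_pos H j k
  have hF0 : (0:ℝ) < F := by exact_mod_cast hF
  have hPQ : Pu H j i * Pu H j k ≤ Y := by
    refine le_trans (le_of_eq ?_) h
    unfold Pu
    rw [← Real.exp_add]
    congr 1
    push_cast
    ring
  set m := min (Pu H j i) (X : ℝ) with hm
  set n := min (Pu H j k) (X : ℝ) with hn
  have hm0 : 0 ≤ m := le_min hP.le (Nat.cast_nonneg _)
  have hn0 : 0 ≤ n := le_min hQ.le (Nat.cast_nonneg _)
  have hmX : m ≤ X := min_le_right _ _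
  have hnX : n ≤ X := min_le_right _ _
  have hmn : m * n ≤ Y := (mul_le_mul (min_le_left _ _) (min_le_left _ _) hn0 hP.le).trans hPQ
  unfold wt
  rw [← hm, ← hn]
  have e : (Y * (1 + 2 * X / (F : ℝ) ^ 2 + Y / (F : ℝ) ^ 4)) *
      (1 / (Pu H j i * (1 + m / (F:ℝ) ^ 2)) * (1 / (Pu H j k * (1 + n / (F:ℝ) ^ 2)))) =
      (Y * (1 + 2 * X / (F : ℝ) ^ 2 + Y / (F : ℝ) ^ 4)) /
        ((Pu H j i * Pu H j k) * ((1 + m / (F:ℝ) ^ 2) * (1 + n / (F:ℝ) ^ 2))) := by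
    rw [div_mul_div_comm, mul_div_assoc']
    congr 1
    · ring
    · ring
  rw [e, le_div_iff₀ (by positivity), one_mul]
  apply mul_le_mul hPQ _ (by positivity) (by linarith)
  have e2 : (1 + m / (F:ℝ) ^ 2) * (1 + n / (F:ℝ) ^ 2) =
      1 + (m + n) / (F:ℝ) ^ 2 + (m * n) / (F:ℝ) ^ 4 := by
    field_simp
    ring
  rw [e2]
  have h1 : (m + n) / (F:ℝ) ^ 2 ≤ 2 * X / (F:ℝ) ^ 2 := by
    gcongr
    linarith
  have h2 : (m * n) / (F:ℝ) ^ 4 ≤ Y / (F:ℝ) ^ 4 := by gcongr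
  linarith

/-- Cauchy-Schwarz over the primitive characters of conductor in `(F, 2F]` -/
lemma cs_char (F : ℕ) (hF : 0 < F) (E G : (f : ℕ) → DirichletCharacter ℂ f → ℝ)
    (hE : ∀ f ψ, 0 ≤ E f ψ) (hG : ∀ f ψ, 0 ≤ G f ψ) (S T : ℝ)
    (h1 : ∑ f ∈ Icc 1 (2 * F), ((f : ℝ) / (Nat.totient f : ℝ)) * ∑ ψ ∈ Prim f, E f ψ ≤ S)
    (h2 : ∑ f ∈ Icc 1 (2 * F), ((f : ℝ) / (Nat.totient f : ℝ)) * ∑ ψ ∈ Prim f, G f ψ ≤ T) :
    ∑ f ∈ Ioc F (2 * F), (1 / (Nat.totient f : ℝ)) * ∑ ψ ∈ Prim f,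
      Real.sqrt (E f ψ) * Real.sqrt (G f ψ) ≤ (1 / F) * Real.sqrt (S * T) := by
  have hF0 : (0:ℝ) < F := by exact_mod_cast hF
  have hsub : Ioc F (2 * F) ⊆ Icc 1 (2 * F) := by
    intro f hf
    rw [mem_Ioc] at hf
    rw [mem_Icc]
    omega
  have hS0 : 0 ≤ ∑ f ∈ Icc 1 (2 * F), ((f : ℝ) / (Nat.totient f : ℝ)) * ∑ ψ ∈ Prim f, E f ψ :=
    sum_nonneg fun f _ => mul_nonneg (by positivity) (sum_nonneg fun ψ _ => hE f ψ)
  have hT0 : 0 ≤ ∑ f ∈ Icc 1 (2 * F), ((f : ℝ) / (Nat.totient f : ℝ)) * ∑ ψ ∈ Prim f, G f ψ :=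
    sum_nonneg fun f _ => mul_nonneg (by positivity) (sum_nonneg fun ψ _ => hG f ψ)
  have e1 : ∀ W : (f : ℕ) → DirichletCharacter ℂ f → ℝ,
      ∑ q ∈ (Ioc F (2 * F)).sigma (fun f => Prim f), ((q.1 : ℝ) / (Nat.totient q.1 : ℝ)) * W q.1 q.2 =
      ∑ f ∈ Ioc F (2 * F), ((f : ℝ) / (Nat.totient f : ℝ)) * ∑ ψ ∈ Prim f, W f ψ := by
    intro W
    rw [sum_sigma]
    apply sum_congr rfl
    intro f _
    rw [mul_sum]
  have h3 : ∑ f ∈ Ioc F (2 * F), (1 / (Nat.totient f : ℝ)) * ∑ ψ ∈ Prim f,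
      Real.sqrt (E f ψ) * Real.sqrt (G f ψ) ≤ (1 / F) *
      ∑ f ∈ Ioc F (2 * F), ((f : ℝ) / (Nat.totient f : ℝ)) * ∑ ψ ∈ Prim f,
      Real.sqrt (E f ψ) * Real.sqrt (G f ψ) := by
    rw [mul_sum]
    apply sum_le_sum
    intro f hf
    rw [mem_Ioc] at hf
    have hfF : (F:ℝ) ≤ f := by exact_mod_cast hf.1.le
    rw [← mul_assoc]
    apply mul_le_mul_of_nonneg_right _ (sum_nonneg fun _ _ => by positivity)
    rw [div_mul_div_comm, one_mul, div_le_div_iff₀]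
    · nlinarith [Nat.cast_nonneg (α := ℝ) (Nat.totient f)]
    · have : 0 < Nat.totient f := Nat.totient_pos.2 (by omega)
      exact_mod_cast this
    · have : 0 < Nat.totient f := Nat.totient_pos.2 (by omega)
      positivity
  refine h3.trans ?_
  apply mul_le_mul_of_nonneg_left _ (by positivity)
  rw [← e1 (fun f ψ => Real.sqrt (E f ψ) * Real.sqrt (G f ψ))]
  have h4 : ∀ q ∈ (Ioc F (2 * F)).sigma (fun f => Prim f),
      ((q.1 : ℝ) / (Nat.totient q.1 : ℝ)) * (Real.sqrt (E q.1 q.2) * Real.sqrt (G q.1 q.2)) =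
      Real.sqrt (((q.1 : ℝ) / (Nat.totient q.1 : ℝ)) * E q.1 q.2) *
        Real.sqrt (((q.1 : ℝ) / (Nat.totient q.1 : ℝ)) * G q.1 q.2) := by
    intro q _
    have h0 : (0:ℝ) ≤ (q.1 : ℝ) / (Nat.totient q.1 : ℝ) := by positivity
    rw [Real.sqrt_mul h0, Real.sqrt_mul h0]
    have := Real.mul_self_sqrt h0
    calc _ = (Real.sqrt ((q.1 : ℝ) / (Nat.totient q.1 : ℝ)) * Real.sqrt ((q.1 : ℝ) / (Nat.totient q.1 : ℝ))) *
        (Real.sqrt (E q.1 q.2) * Real.sqrt (G q.1 q.2)) := by rw [this]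
      _ = _ := by ring
  rw [sum_congr rfl h4]
  refine (Real.sum_mul_le_sqrt_mul_sqrt _ _ _).trans ?_
  have e5 : ∀ W : (f : ℕ) → DirichletCharacter ℂ f → ℝ, (∀ f ψ, 0 ≤ W f ψ) →
      ∑ q ∈ (Ioc F (2 * F)).sigma (fun f => Prim f),
        Real.sqrt (((q.1 : ℝ) / (Nat.totient q.1 : ℝ)) * W q.1 q.2) ^ 2 =
      ∑ f ∈ Ioc F (2 * F), ((f : ℝ) / (Nat.totient f : ℝ)) * ∑ ψ ∈ Prim f, W f ψ := by
    intro W hW
    rw [← e1 W]
    apply sum_congr rfl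
    intro q _
    rw [Real.sq_sqrt]
    exact mul_nonneg (by positivity) (hW _ _)
  rw [e5 E hE, e5 G hG, Real.sqrt_mul (hS0.trans h1)]
  have e6 : ∀ W : (f : ℕ) → DirichletCharacter ℂ f → ℝ, (∀ f ψ, 0 ≤ W f ψ) →
      ∑ f ∈ Ioc F (2 * F), ((f : ℝ) / (Nat.totient f : ℝ)) * ∑ ψ ∈ Prim f, W f ψ ≤
      ∑ f ∈ Icc 1 (2 * F), ((f : ℝ) / (Nat.totient f : ℝ)) * ∑ ψ ∈ Prim f, W f ψ := by
    intro W hW
    exact sum_le_sum_of_subset_of_nonneg hsub fun f _ _ =>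
      mul_nonneg (by positivity) (sum_nonneg fun ψ _ => hW f ψ)
  apply mul_le_mul
  · exact Real.sqrt_le_sqrt ((e6 E hE).trans h1)
  · exact Real.sqrt_le_sqrt ((e6 G hG).trans h2)
  · positivity
  · positivity

/-- number of characters -/
lemma count_char (F : ℕ) :
    ∑ f ∈ Icc 1 (2 * F), ((f : ℝ) / (Nat.totient f : ℝ)) * ∑ _ψ ∈ Prim f, (1:ℝ) ≤
      4 * (F : ℝ) ^ 2 := by
  calc ∑ f ∈ Icc 1 (2 * F), ((f : ℝ) / (Nat.totient f : ℝ)) * ∑ _ψ ∈ Prim f, (1:ℝ)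
      ≤ ∑ _f ∈ Icc 1 (2 * F), (2 * (F:ℝ)) := by
        apply sum_le_sum
        intro f hf
        rw [mem_Icc] at hf
        have h1 := card_prim_le (f := f) (by omega)
        have h2 : 0 < Nat.totient f := Nat.totient_pos.2 (by omega)
        have h3 : (0:ℝ) < Nat.totient f := by exact_mod_cast h2
        have h4 : (f:ℝ) ≤ 2 * F := by exact_mod_cast hf.2
        rw [sum_const, nsmul_eq_mul, mul_one]
        calc (f : ℝ) / (Nat.totient f : ℝ) * ((Prim f).card : ℝ) ≤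
            (f : ℝ) / (Nat.totient f : ℝ) * (Nat.totient f : ℝ) := by gcongr
          _ = f := by field_simp
          _ ≤ 2 * F := h4
    _ = 4 * (F:ℝ) ^ 2 := by
        rw [sum_const, Nat.card_Icc, nsmul_eq_mul]
        push_cast
        ring

/-- mean square bound -/
lemma ms_char (F N : ℕ) (hF : 0 < F) (g : ℕ → ℝ) (S : ℝ) (hS : ∑ n ∈ Icc 1 N, g n ^ 2 ≤ S) :
    ∑ f ∈ Ioc F (2 * F), (1 / (Nat.totient f : ℝ)) * ∑ ψ ∈ Prim f,
      ‖∑ n ∈ Icc 1 N, (g n : ℂ) * ψ (n : ZMod f)‖ ≤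
      5 * Real.sqrt ((N + 4 * (F:ℝ) ^ 2) * S) := by
  have hF0 : (0:ℝ) < F := by exact_mod_cast hF
  have h1 := mult_large_sieve N (2 * F) (fun n => (g n : ℂ))
  have e1 : ∑ n ∈ Icc 1 N, ‖((g n : ℝ) : ℂ)‖ ^ 2 = ∑ n ∈ Icc 1 N, g n ^ 2 := by
    apply sum_congr rfl
    intro n _
    rw [Complex.norm_real, Real.norm_eq_abs, sq_abs]
  rw [e1] at h1
  have hS0 : 0 ≤ S := le_trans (sum_nonneg fun _ _ => by positivity) hS
  have h2 : ∑ f ∈ Icc 1 (2 * F), ((f : ℝ) / (Nat.totient f : ℝ)) * ∑ ψ ∈ Prim f,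
      ‖∑ n ∈ Icc 1 N, (g n : ℂ) * ψ (n : ZMod f)‖ ^ 2 ≤ 6 * (N + 4 * (F:ℝ) ^ 2) * S := by
    refine le_trans h1 ?_
    push_cast
    have : (N:ℝ) + (2 * F) ^ 2 = N + 4 * (F:ℝ) ^ 2 := by ring
    rw [this]
    gcongr
  have h3 := cs_char F hF (fun f ψ => ‖∑ n ∈ Icc 1 N, (g n : ℂ) * ψ (n : ZMod f)‖ ^ 2)
    (fun _ _ => 1) (fun _ _ => by positivity) (fun _ _ => zero_le_one) _ _ h2 (count_char F)
  refine le_trans (le_of_eq ?_) (h3.trans ?_)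
  · apply sum_congr rfl
    intro f _
    congr 1
    apply sum_congr rfl
    intro ψ _
    rw [Real.sqrt_sq (norm_nonneg _), Real.sqrt_one, mul_one]
  · have e2 : 6 * (N + 4 * (F:ℝ) ^ 2) * S * (4 * (F:ℝ) ^ 2) =
        (F:ℝ) ^ 2 * (24 * ((N + 4 * (F:ℝ) ^ 2) * S)) := by ring
    rw [e2, Real.sqrt_mul (by positivity), Real.sqrt_sq hF0.le, ← mul_assoc,
      one_div_mul_cancel hF0.ne', one_mul, Real.sqrt_mul (by norm_num)]
    apply mul_le_mul_of_nonneg_right _ (Real.sqrt_nonneg _)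
    rw [Real.sqrt_le_left (by norm_num)]
    norm_num

end Pool.Agent.H441R3.BV
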