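import Mathlib

/-!
A discrete Whitney decomposition of the region `κ p + κ m + 2 ≤ T`.
-/

set_option autoImplicit false

open Finset

namespace Pool.Agent.H441R3.BV

/-- sum over the cell `i` of level `j` -/
noncomputable def cell (P : Finset ℕ) (κ : ℕ → ℕ) (α : ℕ → ℂ) (j i : ℕ) : ℂ :=
  ∑ p ∈ P with κ p / 2 ^ j = i, α p

/-- sum over the region of level `j` -/
noncomputable def SR (P : Finset ℕ) (κ : ℕ → ℕ) (α β : ℕ → ℂ) (T j : ℕ) : ℂ :=
  ∑ p ∈ P, ∑ m ∈ P, if (κ p / 2 ^ j + κ m / 2 ^ j + 2) * 2 ^ j ≤ T then α p * β m else 0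

lemma fib (P : Finset ℕ) (κ : ℕ → ℕ) (K : ℕ) (hK : ∀ p ∈ P, κ p < K) (α β : ℕ → ℂ) (j : ℕ)
    (c : ℕ → ℕ → ℂ) :
    ∑ p ∈ P, ∑ m ∈ P, c (κ p / 2 ^ j) (κ m / 2 ^ j) * (α p * β m) =
      ∑ i ∈ range K, ∑ k ∈ range K, c i k * (cell P κ α j i * cell P κ β j k) := by
  have hmaps : ∀ p ∈ P, κ p / 2 ^ j ∈ range K := by
    intro p hp
    rw [mem_range]
    exact lt_of_le_of_lt (Nat.div_le_self _ _) (hK p hp)
  rw [← sum_fiberwise_of_maps_to hmaps]
  apply sum_congr rfl
  intro i _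
  have h1 : ∀ p ∈ P.filter (fun p => κ p / 2 ^ j = i),
      ∑ m ∈ P, c (κ p / 2 ^ j) (κ m / 2 ^ j) * (α p * β m) =
      ∑ k ∈ range K, c i k * (α p * cell P κ β j k) := by
    intro p hp
    rw [mem_filter] at hp
    rw [← sum_fiberwise_of_maps_to hmaps]
    apply sum_congr rfl
    intro k _
    unfold cell
    rw [mul_sum, mul_sum]
    apply sum_congr rfl
    intro m hm
    rw [mem_filter] at hm
    rw [hp.2, hm.2]
  rw [sum_congr rfl h1, sum_comm]
  apply sum_congr rfl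
  intro k _
  unfold cell
  rw [sum_mul, mul_sum]

lemma diag_cs (K s : ℕ) (x y : ℕ → ℝ) :
    ∑ i ∈ range K, ∑ k ∈ range K, (if i + k = s then x i * y k else 0) ≤
      Real.sqrt (∑ i ∈ range K, x i ^ 2) * Real.sqrt (∑ i ∈ range K, y i ^ 2) := by
  have h1 : ∀ i ∈ range K, ∑ k ∈ range K, (if i + k = s then x i * y k else 0) =
      x i * ∑ k ∈ range K, (if i + k = s then y k else 0) := by
    intro i _
    rw [mul_sum]
    apply sum_congr rfl
    intro k _
    split_ifs <;> simp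
  rw [sum_congr rfl h1]
  refine (Real.sum_mul_le_sqrt_mul_sqrt _ _ _).trans ?_
  apply mul_le_mul_of_nonneg_left _ (Real.sqrt_nonneg _)
  apply Real.sqrt_le_sqrt
  have h2 : ∀ i ∈ range K, (∑ k ∈ range K, (if i + k = s then y k else 0)) ^ 2 ≤
      ∑ k ∈ range K, (if i + k = s then y k ^ 2 else 0) := by
    intro i _
    by_cases hs : i ≤ s ∧ s - i < K
    · have e1 : ∀ g : ℕ → ℝ, ∑ k ∈ range K, (if i + k = s then g k else 0) = g (s - i) := by
        intro g
        rw [sum_eq_single (s - i)]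
        · rw [if_pos (by omega)]
        · intro b _ hb
          rw [if_neg (by omega)]
        · intro h
          rw [mem_range] at h
          omega
      rw [e1, e1 (fun k => y k ^ 2)]
    · have e1 : ∀ g : ℕ → ℝ, ∑ k ∈ range K, (if i + k = s then g k else 0) = 0 := by
        intro g
        apply sum_eq_zero
        intro k hk
        rw [mem_range] at hk
        rw [if_neg]
        intro h
        apply hs
        omega
      rw [e1, e1 (fun k => y k ^ 2)]
      simp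
  refine (sum_le_sum h2).trans ?_
  rw [sum_comm]
  apply sum_le_sum
  intro k _
  by_cases hs : k ≤ s ∧ s - k < K
  · rw [sum_eq_single (s - k)]
    · rw [if_pos (by omega)]
    · intro b _ hb
      rw [if_neg (by omega)]
    · intro h
      rw [mem_range] at h
      omega
  · rw [sum_eq_zero]
    · positivity
    · intro i hi
      rw [mem_range] at hi
      rw [if_neg]
      intro h
      apply hs
      omega

/-- weighted diagonal bound -/
lemma diag_w (K s : ℕ) (w x y : ℕ → ℝ) (hw : ∀ i, 0 < w i) (hx : ∀ i, 0 ≤ x i)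
    (hy : ∀ i, 0 ≤ y i) (Y : ℝ) (hY : 0 ≤ Y)
    (hwY : ∀ i k, i + k = s → 1 ≤ Y * (w i * w k)) :
    ∑ i ∈ range K, ∑ k ∈ range K, (if i + k = s then x i * y k else 0) ≤
      Real.sqrt Y * (Real.sqrt (∑ i ∈ range K, w i * x i ^ 2) *
        Real.sqrt (∑ i ∈ range K, w i * y i ^ 2)) := by
  have h1 := diag_cs K s (fun i => Real.sqrt (w i) * x i) (fun i => Real.sqrt (w i) * y i)
  have e : ∀ z : ℕ → ℝ, ∑ i ∈ range K, (Real.sqrt (w i) * z i) ^ 2 =
      ∑ i ∈ range K, w i * z i ^ 2 := by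
    intro z
    apply sum_congr rfl
    intro i _
    rw [mul_pow, Real.sq_sqrt (hw i).le]
  rw [e, e] at h1
  refine le_trans ?_ (mul_le_mul_of_nonneg_left h1 (Real.sqrt_nonneg Y))
  rw [mul_sum]
  apply sum_le_sum
  intro i _
  rw [mul_sum]
  apply sum_le_sum
  intro k _
  split_ifs with h
  · have h2 := hwY i k h
    have h3 : 1 ≤ Real.sqrt Y * (Real.sqrt (w i) * Real.sqrt (w k)) := by
      rw [← Real.sqrt_mul (hw i).le, ← Real.sqrt_mul hY, Real.one_le_sqrt]
      exact h2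
    calc x i * y k = 1 * (x i * y k) := by ring
      _ ≤ (Real.sqrt Y * (Real.sqrt (w i) * Real.sqrt (w k))) * (x i * y k) :=
          mul_le_mul_of_nonneg_right h3 (mul_nonneg (hx i) (hy k))
      _ = _ := by ring
  · simp

/-- the two levels differ only on two diagonals -/
lemma two_diag (a b j T : ℕ) :
    ((if (a + b + 2) * 2 ^ j ≤ T then (1 : ℂ) else 0) -
      (if (a / 2 + b / 2 + 2) * 2 ^ (j + 1) ≤ T then (1 : ℂ) else 0)) =
    (if ((a + b + 2) * 2 ^ j ≤ T ∧ ¬ (a / 2 + b / 2 + 2) * 2 ^ (j + 1) ≤ T) then 1 else 0) := by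
  by_cases h2 : (a / 2 + b / 2 + 2) * 2 ^ (j + 1) ≤ T
  · have h1 : (a + b + 2) * 2 ^ j ≤ T := by
      refine le_trans ?_ h2
      rw [pow_succ]
      calc (a + b + 2) * 2 ^ j ≤ ((a / 2 + b / 2 + 2) * 2) * 2 ^ j :=
            Nat.mul_le_mul_right _ (by omega)
        _ = _ := by ring
    rw [if_pos h1, if_pos h2, if_neg (by tauto)]
    simp
  · by_cases h1 : (a + b + 2) * 2 ^ j ≤ T
    · rw [if_pos h1, if_neg h2, if_pos ⟨h1, h2⟩]; simp
    · rw [if_neg h1, if_neg h2, if_neg (by tauto)]; simp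

lemma diag_of (a b j T : ℕ) (h1 : (a + b + 2) * 2 ^ j ≤ T)
    (h2 : ¬ (a / 2 + b / 2 + 2) * 2 ^ (j + 1) ≤ T) :
    a + b + 2 = T / 2 ^ j ∨ a + b + 3 = T / 2 ^ j := by
  have h3 : a + b + 2 ≤ T / 2 ^ j := (Nat.le_div_iff_mul_le (by positivity)).2 h1
  have h4 : T / 2 ^ j < a + b + 4 := by
    rw [Nat.div_lt_iff_lt_mul (by positivity)]
    push Not at h2
    refine lt_of_lt_of_le h2 ?_
    rw [pow_succ]
    calc (a / 2 + b / 2 + 2) * (2 ^ j * 2) = ((a / 2 + b / 2 + 2) * 2) * 2 ^ j := by ring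
      _ ≤ (a + b + 4) * 2 ^ j := Nat.mul_le_mul_right _ (by omega)
  omega

lemma level_step (P : Finset ℕ) (κ : ℕ → ℕ) (K : ℕ) (hK : ∀ p ∈ P, κ p < K) (α β : ℕ → ℂ)
    (T j : ℕ) (w : ℕ → ℝ) (hw : ∀ i, 0 < w i) (Y : ℝ) (hY : 0 ≤ Y)
    (hwY : ∀ i k, (i + k + 2) * 2 ^ j ≤ T → 1 ≤ Y * (w i * w k)) :
    ‖SR P κ α β T j - SR P κ α β T (j + 1)‖ ≤
      2 * (Real.sqrt Y * (Real.sqrt (∑ i ∈ range K, w i * ‖cell P κ α j i‖ ^ 2) *
        Real.sqrt (∑ i ∈ range K, w i * ‖cell P κ β j i‖ ^ 2))) := by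
  set c : ℕ → ℕ → ℂ := fun a b =>
    if ((a + b + 2) * 2 ^ j ≤ T ∧ ¬ (a / 2 + b / 2 + 2) * 2 ^ (j + 1) ≤ T) then 1 else 0 with hc
  have h1 : SR P κ α β T j - SR P κ α β T (j + 1) =
      ∑ i ∈ range K, ∑ k ∈ range K, c i k * (cell P κ α j i * cell P κ β j k) := by
    rw [← fib P κ K hK α β j c]
    unfold SR
    rw [← sum_sub_distrib]
    apply sum_congr rfl
    intro p _
    rw [← sum_sub_distrib]
    apply sum_congr rfl
    intro m _
    have e1 : κ p / 2 ^ (j + 1) = κ p / 2 ^ j / 2 := by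
      rw [pow_succ, Nat.div_div_eq_div_mul]
    have e2 : κ m / 2 ^ (j + 1) = κ m / 2 ^ j / 2 := by
      rw [pow_succ, Nat.div_div_eq_div_mul]
    rw [e1, e2]
    have h := two_diag (κ p / 2 ^ j) (κ m / 2 ^ j) j T
    simp only [hc]
    rw [← h, sub_mul]
    congr 1
    · split_ifs <;> simp
    · split_ifs <;> simp
  rw [h1]
  set x : ℕ → ℝ := fun i => ‖cell P κ α j i‖ with hx
  set y : ℕ → ℝ := fun i => ‖cell P κ β j i‖ with hy
  have hD : ∀ s : ℕ, (s + 2) * 2 ^ j ≤ T →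
      ∑ i ∈ range K, ∑ k ∈ range K, (if i + k = s then x i * y k else 0) ≤
      Real.sqrt Y * (Real.sqrt (∑ i ∈ range K, w i * x i ^ 2) *
        Real.sqrt (∑ i ∈ range K, w i * y i ^ 2)) := by
    intro s hs
    apply diag_w K s w x y hw (fun i => norm_nonneg _) (fun i => norm_nonneg _) Y hY
    intro i k hik
    apply hwY
    rw [hik]
    exact hs
  have hRHS : 0 ≤ Real.sqrt Y * (Real.sqrt (∑ i ∈ range K, w i * x i ^ 2) *
        Real.sqrt (∑ i ∈ range K, w i * y i ^ 2)) := by positivity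
  set q := T / 2 ^ j with hq
  have hqT : q * 2 ^ j ≤ T := Nat.div_mul_le_self _ _
  -- the two diagonals
  have hdd : ∀ r : ℕ, 2 ≤ r → ∑ i ∈ range K, ∑ k ∈ range K, (if i + k + r = q then x i * y k else 0) ≤
      Real.sqrt Y * (Real.sqrt (∑ i ∈ range K, w i * x i ^ 2) *
        Real.sqrt (∑ i ∈ range K, w i * y i ^ 2)) := by
    intro r hr
    by_cases hrq : r ≤ q
    · have e : ∀ i k : ℕ, (i + k + r = q) ↔ (i + k = q - r) := by intro i k; omega
      simp_rw [e]
      apply hD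
      refine le_trans (Nat.mul_le_mul_right _ (by omega)) hqT
    · have : ∑ i ∈ range K, ∑ k ∈ range K, (if i + k + r = q then x i * y k else 0) = 0 := by
        apply sum_eq_zero
        intro i _
        apply sum_eq_zero
        intro k _
        rw [if_neg (by omega)]
      rw [this]
      exact hRHS
  refine (norm_sum_le _ _).trans ?_
  calc ∑ i ∈ range K, ‖∑ k ∈ range K, c i k * (cell P κ α j i * cell P κ β j k)‖
      ≤ ∑ i ∈ range K, ∑ k ∈ range K, ((if i + k + 2 = q then x i * y k else 0) +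
          (if i + k + 3 = q then x i * y k else 0)) := by
        apply sum_le_sum
        intro i _
        refine (norm_sum_le _ _).trans (sum_le_sum ?_)
        intro k _
        rw [norm_mul, norm_mul]
        by_cases h : (i + k + 2) * 2 ^ j ≤ T ∧ ¬ (i / 2 + k / 2 + 2) * 2 ^ (j + 1) ≤ T
        · have hck : c i k = 1 := by simp only [hc]; rw [if_pos h]
          rw [hck, norm_one, one_mul]
          have hxy : 0 ≤ x i * y k := mul_nonneg (norm_nonneg _) (norm_nonneg _)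
          rcases diag_of i k j T h.1 h.2 with h3 | h3
          · rw [if_pos h3]
            split_ifs <;> simp only [hx, hy, add_zero, le_refl]
            linarith
          · rw [if_pos h3]
            split_ifs <;> simp only [hx, hy, zero_add, le_refl]
            linarith
        · have hck : c i k = 0 := by simp only [hc]; rw [if_neg h]
          rw [hck, norm_zero, zero_mul]
          have hxy : 0 ≤ x i * y k := mul_nonneg (norm_nonneg _) (norm_nonneg _)
          split_ifs <;> linarith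
    _ = (∑ i ∈ range K, ∑ k ∈ range K, (if i + k + 2 = q then x i * y k else 0)) +
        ∑ i ∈ range K, ∑ k ∈ range K, (if i + k + 3 = q then x i * y k else 0) := by
        rw [← sum_add_distrib]
        apply sum_congr rfl
        intro i _
        rw [← sum_add_distrib]
    _ ≤ _ := by
        have := hdd 2 le_rfl
        have := hdd 3 (by norm_num)
        linarith

theorem whitney (P : Finset ℕ) (κ : ℕ → ℕ) (K : ℕ) (hK : ∀ p ∈ P, κ p < K) (α β : ℕ → ℂ)
    (T J : ℕ) (hJ : T < 2 * 2 ^ J) (w : ℕ → ℕ → ℝ) (hw : ∀ j i, 0 < w j i) (Y : ℝ) (hY : 0 ≤ Y)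
    (hwY : ∀ j i k, (i + k + 2) * 2 ^ j ≤ T → 1 ≤ Y * (w j i * w j k)) :
    ‖∑ p ∈ P, ∑ m ∈ P, if κ p + κ m + 2 ≤ T then α p * β m else 0‖ ≤
      ∑ j ∈ range J, 2 * (Real.sqrt Y *
        (Real.sqrt (∑ i ∈ range K, w j i * ‖cell P κ α j i‖ ^ 2) *
        Real.sqrt (∑ i ∈ range K, w j i * ‖cell P κ β j i‖ ^ 2))) := by
  have h0 : ∑ p ∈ P, ∑ m ∈ P, (if κ p + κ m + 2 ≤ T then α p * β m else 0) = SR P κ α β T 0 := by
    unfold SR
    simp
  have hJ0 : SR P κ α β T J = 0 := by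
    unfold SR
    apply sum_eq_zero
    intro p _
    apply sum_eq_zero
    intro m _
    rw [if_neg]
    intro h
    have : 2 * 2 ^ J ≤ (κ p / 2 ^ J + κ m / 2 ^ J + 2) * 2 ^ J :=
      Nat.mul_le_mul_right _ (Nat.le_add_left 2 _)
    omega
  have htel : SR P κ α β T 0 = ∑ j ∈ range J, (SR P κ α β T j - SR P κ α β T (j + 1)) := by
    rw [Finset.sum_range_sub', hJ0, sub_zero]
  rw [h0, htel]
  refine (norm_sum_le _ _).trans (sum_le_sum ?_)
  intro j _
  exact level_step P κ K hK α β T j (w j) (hw j) Y hY (hwY j)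

end Pool.Agent.H441R3.BV
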